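import Pool.Agent.H724R3.Wind

/-!
Small values on circles: if a family of polynomials is an approximate semigroup on a circle and the
member at time `t / 4` is small at the centre, then the member at time `t` is small somewhere on the
circle.
-/

set_option autoImplicit false

open Filter Topology Polynomial

namespace Pool.Agent.Y282.CS

open Pool.Agent.H724R3.Semi (nz nz_const nz_homotopy)

/-- the polynomial function with coefficients `c j x`, `j < M` -/
noncomputable def Fe (M : ℕ) (c : ℕ → ℝ → ℂ) (x : ℝ) (z : ℂ) : ℂ :=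
  ∑ j ∈ Finset.range M, c j x * z ^ j

/-- the translated polynomial -/
noncomputable def Tp (M : ℕ) (c : ℕ → ℝ → ℂ) (z₁ : ℂ) (x : ℝ) : ℂ[X] :=
  ∑ i ∈ Finset.range M, C (c i x) * (X + C z₁) ^ i

theorem Tp_eval (M : ℕ) (c : ℕ → ℝ → ℂ) (z₁ : ℂ) (x : ℝ) (w : ℂ) :
    (Tp M c z₁ x).eval w = Fe M c x (w + z₁) := by
  simp [Tp, Fe, eval_finsetSum]

theorem Tp_natDegree (M : ℕ) (c : ℕ → ℝ → ℂ) (z₁ : ℂ) (x : ℝ) :
    (Tp (M + 1) c z₁ x).natDegree < M + 1 := by
  rw [Nat.lt_succ_iff]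
  unfold Tp
  apply natDegree_sum_le_of_forall_le
  intro i hi
  refine (natDegree_C_mul_le _ _).trans ?_
  refine (natDegree_pow_le).trans ?_
  rw [natDegree_X_add_C, mul_one]
  have := Finset.mem_range.1 hi
  omega

theorem Tp_coeff_cont (M : ℕ) (c : ℕ → ℝ → ℂ) (z₁ : ℂ) (τ : ℝ → ℝ)
    (hc : ∀ j, Continuous fun x => c j (τ x)) (j : ℕ) :
    Continuous fun x => (Tp M c z₁ (τ x)).coeff j := by
  have h : ∀ x, (Tp M c z₁ (τ x)).coeff j
      = ∑ i ∈ Finset.range M, c i (τ x) * ((X + C z₁ : ℂ[X]) ^ i).coeff j := by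
    intro x
    simp [Tp, coeff_C_mul]
  simp only [h]
  apply continuous_finsetSum
  intro i _
  exact (hc i).mul continuous_const

lemma nz_sq' (ρ : ℝ) (P : ℂ[X]) : nz ρ (P * P) = 2 * nz ρ P := by
  by_cases hP : P = 0
  · subst hP
    simp [nz]
  · unfold nz
    rw [roots_mul (mul_ne_zero hP hP), Multiset.filter_add, Multiset.card_add]
    ring

/-- a polynomial without zeros in a disc is at the centre at least as large as the minimum on the
circle -/
theorem min_modulus {ρ κ : ℝ} (hρ : 0 < ρ) (hκ : 0 < κ) (P : ℂ[X])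
    (h0 : ∀ w : ℂ, ‖w‖ < ρ → P.eval w ≠ 0) (hs : ∀ w : ℂ, ‖w‖ = ρ → κ ≤ ‖P.eval w‖) :
    κ ≤ ‖P.eval 0‖ := by
  have hne : ∀ w ∈ closure (Metric.ball (0 : ℂ) ρ), P.eval w ≠ 0 := by
    intro w hw
    rw [closure_ball _ hρ.ne', mem_closedBall_zero_iff] at hw
    rcases hw.lt_or_eq with h | h
    · exact h0 w h
    · intro h1
      have := hs w h
      rw [h1, norm_zero] at this
      linarith
  have hd : DiffContOnCl ℂ (fun w => (P.eval w)⁻¹) (Metric.ball (0 : ℂ) ρ) := by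
    apply DiffContOnCl.inv
    · exact P.differentiable.diffContOnCl
    · exact hne
  have h1 := Complex.norm_le_of_forall_mem_frontier_norm_le Metric.isBounded_ball hd
    (C := κ⁻¹) (by
      intro w hw
      rw [frontier_ball _ hρ.ne', mem_sphere_zero_iff_norm] at hw
      rw [norm_inv]
      exact inv_anti₀ hκ (hs w hw)) (z := 0) (subset_closure (by simpa using hρ))
  rw [norm_inv] at h1
  have h2 : P.eval 0 ≠ 0 := h0 0 (by simpa using hρ)
  exact (inv_le_inv₀ (norm_pos_iff.2 h2) hκ).1 h1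

/-- **the small value lemma** -/
theorem bad_point (M : ℕ) (c : ℕ → ℝ → ℂ) {t : ℝ} (ht : 0 < t)
    (hc : ∀ j, ContinuousOn (c j) (Set.Ioi 0)) (z₁ : ℂ) {ρ D η γ : ℝ} (hρ : 0 < ρ) (hD : 1 ≤ D)
    (hγ0 : 0 < γ) (hγ1 : γ ≤ 1) (hη : 0 ≤ η) (hηγ : 2 * η ≤ γ)
    (hdef : ∀ x y, t / 4 ≤ x → x ≤ 3 * t / 4 → t / 4 ≤ y → y ≤ 3 * t / 4 → x + y ≤ t →
      ∀ z : ℂ, ‖z - z₁‖ = ρ →
      ‖Fe (M + 1) c (x + y) z - Fe (M + 1) c x z * Fe (M + 1) c y z‖ ≤ η)
    (hFD : ∀ x, t / 4 ≤ x → x ≤ 3 * t / 4 → ∀ z : ℂ, ‖z - z₁‖ = ρ → ‖Fe (M + 1) c x z‖ ≤ D)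
    (hsmall : ‖Fe (M + 1) c (t / 4) z₁‖ < γ / (2 * D)) :
    ∃ z : ℂ, ‖z - z₁‖ = ρ ∧ ‖Fe (M + 1) c t z‖ < γ := by
  by_contra hcon
  push Not at hcon
  -- nonvanishing
  have hprod : ∀ x, t / 4 ≤ x → x ≤ 3 * t / 4 → ∀ z : ℂ, ‖z - z₁‖ = ρ →
      γ / 2 ≤ ‖Fe (M + 1) c x z * Fe (M + 1) c (t - x) z‖ := by
    intro x hx1 hx2 z hz
    have h1 := hdef x (t - x) hx1 hx2 (by linarith) (by linarith) (by linarith) z hz
    have h2 : x + (t - x) = t := by ring
    rw [h2] at h1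
    have h3 := hcon z hz
    have h4 := norm_sub_norm_le (Fe (M + 1) c t z) (Fe (M + 1) c x z * Fe (M + 1) c (t - x) z)
    linarith
  have hne : ∀ x, t / 4 ≤ x → x ≤ 3 * t / 4 → ∀ z : ℂ, ‖z - z₁‖ = ρ → Fe (M + 1) c x z ≠ 0 := by
    intro x hx1 hx2 z hz h0
    have := hprod x hx1 hx2 z hz
    rw [h0, zero_mul, norm_zero] at this
    linarith
  have hw : ∀ w : ℂ, ‖w‖ = ρ → ‖(w + z₁) - z₁‖ = ρ := by
    intro w hw
    rw [add_sub_cancel_right]
    exact hw
  -- continuity: the count is constant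
  have e1 : nz ρ (Tp (M + 1) c z₁ (t / 4)) = nz ρ (Tp (M + 1) c z₁ (t / 2)) := by
    set τ : ℝ → ℝ := fun x => max (t / 4) (min (t / 2) x) with hτ
    have hτ0 : ∀ x, t / 4 ≤ τ x := fun x => le_max_left _ _
    have hτ1 : ∀ x, τ x ≤ t / 2 := fun x => max_le (by linarith) (min_le_left _ _)
    have hcτ : ∀ j, Continuous fun x => c j (τ x) := by
      intro j
      refine (hc j).comp_continuous (by fun_prop) fun x => ?_
      have := hτ0 x
      simp only [Set.mem_Ioi]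
      linarith
    have hex : ∀ x, ∑ j ∈ Finset.range (M + 1), C ((Tp (M + 1) c z₁ (τ x)).coeff j) * X ^ j
        = Tp (M + 1) c z₁ (τ x) := by
      intro x
      exact ((Tp (M + 1) c z₁ (τ x)).as_sum_range_C_mul_X_pow' (Tp_natDegree M c z₁ (τ x))).symm
    have h := nz_const hρ (M + 1) (fun j x => (Tp (M + 1) c z₁ (τ x)).coeff j)
      (fun j => Tp_coeff_cont (M + 1) c z₁ τ hcτ j) (by
        intro x z hz
        have h1 : ∑ j ∈ Finset.range (M + 1), (Tp (M + 1) c z₁ (τ x)).coeff j * z ^ j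
            = (Tp (M + 1) c z₁ (τ x)).eval z :=
          (eval_eq_sum_range' (Tp_natDegree M c z₁ (τ x)) z).symm
        rw [h1, Tp_eval]
        exact hne _ (hτ0 x) (by linarith [hτ1 x]) _ (hw z hz)) (t / 4) (t / 2)
    simp only [hex] at h
    have h1 : τ (t / 4) = t / 4 := by
      simp only [hτ]
      rw [min_eq_right (by linarith), max_self]
    have h2 : τ (t / 2) = t / 2 := by
      simp only [hτ]
      rw [min_self, max_eq_right (by linarith)]
    rw [h1, h2] at h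
    exact h
  -- multiplicativity
  have e2 : nz ρ (Tp (M + 1) c z₁ (t / 2))
      = nz ρ (Tp (M + 1) c z₁ (t / 4) * Tp (M + 1) c z₁ (t / 4)) := by
    apply nz_homotopy hρ
    intro w hw'
    rw [eval_mul, Tp_eval, Tp_eval, norm_sub_rev]
    have h1 := hdef (t / 4) (t / 4) le_rfl (by linarith) le_rfl (by linarith) (by linarith) _
      (hw w hw')
    have h2 : t / 4 + t / 4 = t / 2 := by ring
    rw [h2] at h1
    refine h1.trans_lt ?_
    have h3 := hprod (t / 2) (by linarith) (by linarith) _ (hw w hw')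
    have h4 : t - t / 2 = t / 2 := by ring
    rw [h4, norm_mul] at h3
    by_contra h5
    push Not at h5
    have h6 := norm_nonneg (Fe (M + 1) c (t / 2) (w + z₁))
    have h7 : ‖Fe (M + 1) c (t / 2) (w + z₁)‖ * ‖Fe (M + 1) c (t / 2) (w + z₁)‖ ≤ η * η :=
      mul_le_mul h5 h5 h6 hη
    nlinarith
  rw [nz_sq'] at e2
  have e3 : nz ρ (Tp (M + 1) c z₁ (t / 4)) = 0 := by omega
  have hpne : Tp (M + 1) c z₁ (t / 4) ≠ 0 := by
    intro h0
    have h1 := hne (t / 4) le_rfl (by linarith) ((ρ : ℂ) + z₁) (by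
      rw [add_sub_cancel_right]
      simp [abs_of_pos hρ])
    rw [← Tp_eval, h0, eval_zero] at h1
    exact h1 rfl
  have hD0 : (0 : ℝ) < 2 * D := by linarith
  have hfin := min_modulus hρ (κ := γ / (2 * D)) (div_pos hγ0 hD0)
    (Tp (M + 1) c z₁ (t / 4)) (by
      intro w hw1 hw2
      unfold nz at e3
      rw [Multiset.card_eq_zero] at e3
      have hroot : w ∈ (Tp (M + 1) c z₁ (t / 4)).roots := by
        rw [mem_roots hpne]
        exact hw2
      have : w ∈ (Tp (M + 1) c z₁ (t / 4)).roots.filter fun b => ‖b‖ < ρ := by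
        rw [Multiset.mem_filter]
        exact ⟨hroot, hw1⟩
      rw [e3] at this
      exact absurd this (Multiset.notMem_zero _)) (by
      intro w hw1
      rw [Tp_eval]
      have h1 := hprod (t / 4) le_rfl (by linarith) _ (hw w hw1)
      rw [norm_mul] at h1
      have h2 := hFD (t - t / 4) (by linarith) (by linarith) _ (hw w hw1)
      have h3 : γ / 2 ≤ ‖Fe (M + 1) c (t / 4) (w + z₁)‖ * D :=
        h1.trans (mul_le_mul_of_nonneg_left h2 (norm_nonneg _))
      rw [div_le_iff₀ hD0]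
      linarith)
  rw [Tp_eval, zero_add] at hfin
  linarith

end Pool.Agent.Y282.CS
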