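import Mathlib

/-!
Level-`n` truncations of discrete measures on `(0, N]` and the multiplicativity defect.
-/

set_option autoImplicit false

open Filter Topology

namespace Pool.Agent.Y282.CS

/-- `r * n !` rounded down -/
def ix (n : ℕ) (r : ℚ) : ℕ := ⌊r * (n.factorial : ℚ)⌋₊

/-- `r * n !` is a natural number -/
def L (n : ℕ) (r : ℚ) : Prop := ((ix n r : ℕ) : ℚ) = r * (n.factorial : ℚ)

theorem fac_pos (n : ℕ) : (0 : ℚ) < (n.factorial : ℚ) := by exact_mod_cast n.factorial_pos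

theorem L_of_eq {n k : ℕ} {r : ℚ} (h : (k : ℚ) = r * (n.factorial : ℚ)) : L n r ∧ ix n r = k := by
  have h1 : ix n r = k := by
    unfold ix
    rw [← h, Nat.floor_natCast]
  refine ⟨?_, h1⟩
  unfold L
  rw [h1, h]

theorem L_nonneg {n : ℕ} {r : ℚ} (h : L n r) : 0 ≤ r := by
  unfold L at h
  have h1 : (0 : ℚ) ≤ r * n.factorial := by rw [← h]; positivity
  by_contra h2
  push Not at h2
  have := mul_neg_of_neg_of_pos h2 (fac_pos n)
  linarith

theorem L_add {n : ℕ} {r s : ℚ} (hr : L n r) (hs : L n s) :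
    L n (r + s) ∧ ix n (r + s) = ix n r + ix n s := by
  apply L_of_eq
  unfold L at hr hs
  push_cast
  rw [hr, hs]
  ring

theorem L_of_add {n : ℕ} {r s : ℚ} (hr : L n r) (hs0 : 0 ≤ s) (h : L n (r + s)) : L n s := by
  have h1 : ((ix n (r + s) : ℕ) : ℚ) = (r + s) * n.factorial := h
  have h2 : ((ix n r : ℕ) : ℚ) = r * n.factorial := hr
  have h3 : ((ix n (r + s) : ℕ) : ℚ) - (ix n r : ℕ) = s * n.factorial := by
    rw [h1, h2]; ring
  have h4 : (0 : ℚ) ≤ s * n.factorial := mul_nonneg hs0 (fac_pos n).le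
  have h5 : ix n r ≤ ix n (r + s) := by
    have : ((ix n r : ℕ) : ℚ) ≤ (ix n (r + s) : ℕ) := by linarith
    exact_mod_cast this
  have h6 : ((ix n (r + s) - ix n r : ℕ) : ℚ) = s * n.factorial := by
    rw [Nat.cast_sub h5, h3]
  exact (L_of_eq h6).1

/-- the level-`n` kernel -/
noncomputable def W (N n : ℕ) (z : ℂ) (r : ℚ) : ℂ :=
  open Classical in if L n r ∧ ix n r ≤ N * n.factorial then z ^ ix n r else 0

theorem W_pos {N n : ℕ} {z : ℂ} {r : ℚ} (h : L n r) (h' : ix n r ≤ N * n.factorial) :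
    W N n z r = z ^ ix n r := by
  unfold W
  rw [if_pos ⟨h, h'⟩]

theorem W_neg {N n : ℕ} {z : ℂ} {r : ℚ} (h : ¬ (L n r ∧ ix n r ≤ N * n.factorial)) :
    W N n z r = 0 := by
  unfold W
  rw [if_neg h]

theorem W_le {N n : ℕ} {z : ℂ} (hz : ‖z‖ ≤ 1) (r : ℚ) : ‖W N n z r‖ ≤ 1 := by
  by_cases h : L n r ∧ ix n r ≤ N * n.factorial
  · rw [W_pos h.1 h.2, norm_pow]
    exact pow_le_one₀ (norm_nonneg _) hz
  · rw [W_neg h, norm_zero]
    exact zero_le_one

theorem W_gt {N n : ℕ} {z : ℂ} {r : ℚ} (h : (N : ℚ) < r) : W N n z r = 0 := by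
  apply W_neg
  rintro ⟨h1, h2⟩
  unfold L at h1
  have h3 : ((ix n r : ℕ) : ℚ) ≤ ((N * n.factorial : ℕ) : ℚ) := by exact_mod_cast h2
  rw [h1] at h3
  push_cast at h3
  have := le_of_mul_le_mul_right h3 (fac_pos n)
  linarith

/-- indicator of the complement of the level-`n` lattice -/
noncomputable def U (n : ℕ) (r : ℚ) : ℝ := open Classical in if L n r then 0 else 1

theorem U_nonneg (n : ℕ) (r : ℚ) : 0 ≤ U n r := by
  unfold U; split_ifs <;> norm_num

theorem U_le (n : ℕ) (r : ℚ) : U n r ≤ 1 := by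
  unfold U; split_ifs <;> norm_num

/-- pointwise defect -/
theorem W_defect {N n : ℕ} {z : ℂ} (hz : ‖z‖ ≤ 1) {p q : ℚ} (hp : 0 < p) (hq : 0 < q) :
    ‖W N n z (p + q) - W N n z p * W N n z q‖ ≤ U n p * U n q + ‖z‖ ^ (N * n.factorial) := by
  have hz0 : 0 ≤ ‖z‖ ^ (N * n.factorial) := by positivity
  by_cases hLp : L n p
  · by_cases hLq : L n q
    · obtain ⟨h1, h2⟩ := L_add hLp hLq
      have hU : 0 ≤ U n p * U n q := mul_nonneg (U_nonneg _ _) (U_nonneg _ _)
      by_cases h3 : ix n (p + q) ≤ N * n.factorial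
      · rw [W_pos h1 h3, W_pos hLp (by omega), W_pos hLq (by omega), h2, pow_add, sub_self,
          norm_zero]
        positivity
      · rw [W_neg (r := p + q) (fun h => h3 h.2), zero_sub, norm_neg]
        by_cases h4 : ix n p ≤ N * n.factorial
        · by_cases h5 : ix n q ≤ N * n.factorial
          · rw [W_pos hLp h4, W_pos hLq h5, ← pow_add, norm_pow]
            have : ‖z‖ ^ (ix n p + ix n q) ≤ ‖z‖ ^ (N * n.factorial) :=
              pow_le_pow_of_le_one (norm_nonneg _) hz (by omega)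
            linarith
          · rw [W_neg (r := q) (fun h => h5 h.2), mul_zero, norm_zero]
            positivity
        · rw [W_neg (r := p) (fun h => h4 h.2), zero_mul, norm_zero]
          positivity
    · have h1 : ¬ L n (p + q) := fun h => hLq (L_of_add hLp hq.le h)
      rw [W_neg (r := p + q) (fun h => h1 h.1), W_neg (r := q) (fun h => hLq h.1), mul_zero,
        sub_zero, norm_zero]
      have hU : 0 ≤ U n p * U n q := mul_nonneg (U_nonneg _ _) (U_nonneg _ _)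
      positivity
  · rw [W_neg (r := p) (fun h => hLp h.1), zero_mul, sub_zero]
    by_cases hLq : L n q
    · have h1 : ¬ L n (p + q) := fun h => hLp (L_of_add hLq hp.le (by rwa [add_comm]))
      rw [W_neg (r := p + q) (fun h => h1 h.1), norm_zero]
      have hU : 0 ≤ U n p * U n q := mul_nonneg (U_nonneg _ _) (U_nonneg _ _)
      positivity
    · have hU : U n p * U n q = 1 := by
        unfold U
        rw [if_neg hLp, if_neg hLq, one_mul]
      rw [hU]
      have := W_le (N := N) (n := n) hz (p + q)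
      linarith

/-- the level-`n` evaluation -/
noncomputable def ev (N n : ℕ) (f : ℚ → ℂ) (z : ℂ) : ℂ := ∑' r : ℚ, f r * W N n z r

/-- the mass off the level-`n` lattice -/
noncomputable def tail (n : ℕ) (f : ℚ → ℂ) : ℝ := ∑' r : ℚ, ‖f r‖ * U n r

theorem ev_summable {N n : ℕ} {f : ℚ → ℂ} (hf : Summable fun r => ‖f r‖) {z : ℂ} (hz : ‖z‖ ≤ 1) :
    Summable fun r => ‖f r * W N n z r‖ := by
  refine Summable.of_nonneg_of_le (fun r => norm_nonneg _) (fun r => ?_) hf
  rw [norm_mul]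
  exact mul_le_of_le_one_right (norm_nonneg _) (W_le hz r)

theorem ev_norm_le {N n : ℕ} {f : ℚ → ℂ} (hf : Summable fun r => ‖f r‖) {z : ℂ} (hz : ‖z‖ ≤ 1) :
    ‖ev N n f z‖ ≤ ∑' r, ‖f r‖ := by
  unfold ev
  refine (norm_tsum_le_tsum_norm (ev_summable hf hz)).trans ?_
  refine (ev_summable hf hz).tsum_le_tsum (fun r => ?_) hf
  rw [norm_mul]
  exact mul_le_of_le_one_right (norm_nonneg _) (W_le hz r)

theorem tail_summable {n : ℕ} {f : ℚ → ℂ} (hf : Summable fun r => ‖f r‖) :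
    Summable fun r => ‖f r‖ * U n r :=
  Summable.of_nonneg_of_le (fun r => mul_nonneg (norm_nonneg _) (U_nonneg _ _))
    (fun r => mul_le_of_le_one_right (norm_nonneg _) (U_le n r)) hf

theorem tail_nonneg (n : ℕ) (f : ℚ → ℂ) : 0 ≤ tail n f :=
  tsum_nonneg fun r => mul_nonneg (norm_nonneg _) (U_nonneg _ _)

/-- the change of variables `(r, p) ↦ (p, r - p)` -/
def shear : ℚ × ℚ ≃ ℚ × ℚ where
  toFun x := (x.2, x.1 - x.2)
  invFun y := (y.1 + y.2, y.1)
  left_inv x := by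
    ext <;> simp
  right_inv y := by
    ext <;> simp

/-- **the defect bound** -/
theorem defect_bound {N n : ℕ} {f g h : ℚ → ℂ} (hf : Summable fun r => ‖f r‖)
    (hg : Summable fun r => ‖g r‖) (hf0 : ∀ r ≤ 0, f r = 0) (hg0 : ∀ r ≤ 0, g r = 0)
    (hh : ∀ r : ℚ, r ≤ N → h r = ∑' p : ℚ, f p * g (r - p)) {z : ℂ} (hz : ‖z‖ ≤ 1) :
    ‖ev N n h z - ev N n f z * ev N n g z‖
      ≤ tail n f * tail n g + (∑' r, ‖f r‖) * (∑' r, ‖g r‖) * ‖z‖ ^ (N * n.factorial) := by
  have hfg : Summable fun x : ℚ × ℚ => ‖f x.1‖ * ‖g x.2‖ :=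
    hf.mul_of_nonneg hg (fun _ => norm_nonneg _) (fun _ => norm_nonneg _)
  -- the value of `h`
  have hs1 : Summable fun x : ℚ × ℚ => f x.1 * g x.2 * W N n z (x.1 + x.2) := by
    apply Summable.of_norm_bounded hfg
    intro x
    rw [norm_mul, norm_mul]
    exact mul_le_of_le_one_right (by positivity) (W_le hz _)
  have hs2 : Summable fun x : ℚ × ℚ => f x.2 * g (x.1 - x.2) * W N n z x.1 := by
    have h1 := (shear.summable_iff).2 hs1
    refine h1.congr fun x => ?_
    simp [shear]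
  have e1 : ev N n h z = ∑' x : ℚ × ℚ, f x.1 * g x.2 * W N n z (x.1 + x.2) := by
    have h1 : ∑' x : ℚ × ℚ, f x.1 * g x.2 * W N n z (x.1 + x.2)
        = ∑' x : ℚ × ℚ, f x.2 * g (x.1 - x.2) * W N n z x.1 := by
      rw [← shear.tsum_eq]
      congr 1
      funext x
      simp [shear]
    rw [h1, hs2.tsum_prod]
    unfold ev
    congr 1
    funext r
    change _ = ∑' c : ℚ, f c * g (r - c) * W N n z r
    rw [tsum_mul_right]
    by_cases hr : r ≤ N
    · rw [hh r hr]
    · push Not at hr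
      rw [W_gt hr, mul_zero, mul_zero]
  have hs3 : Summable fun x : ℚ × ℚ => (f x.1 * W N n z x.1) * (g x.2 * W N n z x.2) := by
    apply Summable.of_norm_bounded hfg
    intro x
    rw [norm_mul, norm_mul, norm_mul]
    apply mul_le_mul
    · exact mul_le_of_le_one_right (norm_nonneg _) (W_le hz _)
    · exact mul_le_of_le_one_right (norm_nonneg _) (W_le hz _)
    · positivity
    · positivity
  have e2 : ev N n f z * ev N n g z
      = ∑' x : ℚ × ℚ, (f x.1 * W N n z x.1) * (g x.2 * W N n z x.2) := by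
    unfold ev
    exact (ev_summable hf hz).of_norm.tsum_mul_tsum (ev_summable hg hz).of_norm hs3
  rw [e1, e2, ← hs1.tsum_sub hs3]
  have hb : ∀ x : ℚ × ℚ, ‖f x.1 * g x.2 * W N n z (x.1 + x.2)
      - (f x.1 * W N n z x.1) * (g x.2 * W N n z x.2)‖
      ≤ (‖f x.1‖ * U n x.1) * (‖g x.2‖ * U n x.2)
        + ‖f x.1‖ * ‖g x.2‖ * ‖z‖ ^ (N * n.factorial) := by
    intro x
    have h1 : f x.1 * g x.2 * W N n z (x.1 + x.2) - (f x.1 * W N n z x.1) * (g x.2 * W N n z x.2)
        = f x.1 * g x.2 * (W N n z (x.1 + x.2) - W N n z x.1 * W N n z x.2) := by ring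
    rw [h1, norm_mul, norm_mul]
    by_cases hp : x.1 ≤ 0
    · rw [hf0 _ hp]
      simp
    · by_cases hq : x.2 ≤ 0
      · rw [hg0 _ hq]
        simp
      · push Not at hp hq
        have h2 := W_defect (N := N) (n := n) hz hp hq
        calc ‖f x.1‖ * ‖g x.2‖ * ‖W N n z (x.1 + x.2) - W N n z x.1 * W N n z x.2‖
            ≤ ‖f x.1‖ * ‖g x.2‖ * (U n x.1 * U n x.2 + ‖z‖ ^ (N * n.factorial)) :=
              mul_le_mul_of_nonneg_left h2 (by positivity)
          _ = _ := by ring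
  have hs4 : Summable fun x : ℚ × ℚ => (‖f x.1‖ * U n x.1) * (‖g x.2‖ * U n x.2) :=
    (tail_summable hf).mul_of_nonneg (tail_summable hg)
      (fun _ => mul_nonneg (norm_nonneg _) (U_nonneg _ _))
      (fun _ => mul_nonneg (norm_nonneg _) (U_nonneg _ _))
  have hs5 : Summable fun x : ℚ × ℚ => ‖f x.1‖ * ‖g x.2‖ * ‖z‖ ^ (N * n.factorial) :=
    hfg.mul_right _
  refine (tsum_of_norm_bounded (hs4.add hs5).hasSum hb).trans ?_
  rw [hs4.tsum_add hs5, tsum_mul_right,
    ← (tail_summable hf).tsum_mul_tsum (tail_summable hg) hs4,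
    ← hf.tsum_mul_tsum hg hfg]
  exact le_rfl

/-- the embedding `j ↦ j / n !` -/
def emb (n : ℕ) : ℕ ↪ ℚ where
  toFun j := (j : ℚ) / (n.factorial : ℚ)
  inj' a b hab := by
    have h1 := fac_pos n
    simp only at hab
    have h2 := (div_left_inj' h1.ne').1 hab
    exact_mod_cast h2

theorem L_emb (n j : ℕ) : L n ((j : ℚ) / (n.factorial : ℚ)) ∧ ix n ((j : ℚ) / (n.factorial : ℚ)) = j :=
  L_of_eq (by rw [div_mul_cancel₀ _ (fac_pos n).ne'])

/-- the evaluation is a polynomial -/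
theorem ev_eq_sum (N n : ℕ) (f : ℚ → ℂ) (z : ℂ) :
    ev N n f z = ∑ j ∈ Finset.range (N * n.factorial + 1), f ((j : ℚ) / (n.factorial : ℚ)) * z ^ j := by
  unfold ev
  rw [tsum_eq_sum (s := (Finset.range (N * n.factorial + 1)).map (emb n))]
  · rw [Finset.sum_map]
    apply Finset.sum_congr rfl
    intro j hj
    have h1 := L_emb n j
    have h2 := Finset.mem_range.1 hj
    change f ((j : ℚ) / (n.factorial : ℚ)) * W N n z ((j : ℚ) / (n.factorial : ℚ)) = _
    rw [W_pos h1.1 (by rw [h1.2]; omega), h1.2]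
  · intro r hr
    by_cases h : L n r ∧ ix n r ≤ N * n.factorial
    · exfalso
      apply hr
      rw [Finset.mem_map]
      refine ⟨ix n r, by rw [Finset.mem_range]; omega, ?_⟩
      change ((ix n r : ℕ) : ℚ) / (n.factorial : ℚ) = r
      rw [h.1, mul_div_cancel_right₀ _ (fac_pos n).ne']
    · rw [W_neg h, mul_zero]

theorem ev_zero {N n : ℕ} {f : ℚ → ℂ} (hf0 : ∀ r ≤ 0, f r = 0) : ev N n f 0 = 0 := by
  unfold ev
  have h : ∀ r, f r * W N n 0 r = 0 := by
    intro r
    by_cases hr : r ≤ 0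
    · rw [hf0 r hr, zero_mul]
    · push Not at hr
      by_cases h : L n r ∧ ix n r ≤ N * n.factorial
      · rw [W_pos h.1 h.2]
        have h1 : ix n r ≠ 0 := by
          intro h2
          have h3 : ((ix n r : ℕ) : ℚ) = r * n.factorial := h.1
          rw [h2] at h3
          have := mul_pos hr (fac_pos n)
          simp only [Nat.cast_zero] at h3
          linarith
        rw [zero_pow h1, mul_zero]
      · rw [W_neg h, mul_zero]
  simp [h]

/-- every rational is on the level-`n` lattice for all large `n` -/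
theorem L_eventually {r : ℚ} (hr : 0 ≤ r) {n : ℕ} (hn : r.den ≤ n) : L n r := by
  obtain ⟨k, hk⟩ := Nat.dvd_factorial r.den_pos hn
  have h0 : (0 : ℚ) < r.den := by exact_mod_cast r.den_pos
  have h1 : ((r.num.toNat * k : ℕ) : ℚ) = r * (n.factorial : ℚ) := by
    rw [hk]
    push_cast
    have h2 : ((r.num.toNat : ℕ) : ℚ) = (r.num : ℚ) := by
      have : ((r.num.toNat : ℕ) : ℤ) = r.num := Int.toNat_of_nonneg (Rat.num_nonneg.2 hr)
      exact_mod_cast this
    rw [h2]
    have h3 : (r.num : ℚ) = r * r.den := (Rat.mul_den_eq_num r).symm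
    rw [h3]
    ring
  exact (L_of_eq h1).1

theorem tail_tendsto {f : ℚ → ℂ} (hf : Summable fun r => ‖f r‖) (hf0 : ∀ r ≤ 0, f r = 0) :
    Tendsto (fun n => tail n f) atTop (𝓝 0) := by
  have h1 : Tendsto (fun n => ∑' r : ℚ, ‖f r‖ * U n r) atTop (𝓝 (∑' _r : ℚ, (0 : ℝ))) := by
    refine tendsto_tsum_of_dominated_convergence hf ?_ ?_
    · intro r
      by_cases hr : r ≤ 0
      · rw [hf0 r hr]
        simp
      · push Not at hr
        apply tendsto_const_nhds.congr'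
        filter_upwards [eventually_ge_atTop r.den] with n hn
        unfold U
        rw [if_pos (L_eventually hr.le hn), mul_zero]
    · filter_upwards with n r
      rw [Real.norm_eq_abs, abs_of_nonneg (mul_nonneg (norm_nonneg _) (U_nonneg _ _))]
      exact mul_le_of_le_one_right (norm_nonneg _) (U_le n r)
  rw [tsum_zero] at h1
  exact h1

theorem tail_le_add {n : ℕ} {f g : ℚ → ℂ} (hf : Summable fun r => ‖f r‖)
    (hg : Summable fun r => ‖g r‖) : tail n f ≤ tail n g + ∑' r, ‖f r - g r‖ := by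
  have hfg : Summable fun r => ‖f r - g r‖ := by
    refine Summable.of_nonneg_of_le (fun r => norm_nonneg _) (fun r => norm_sub_le _ _) (hf.add hg)
  unfold tail
  rw [← (tail_summable hg).tsum_add hfg]
  refine (tail_summable hf).tsum_le_tsum (fun r => ?_) ((tail_summable hg).add hfg)
  have h1 : ‖f r‖ ≤ ‖g r‖ + ‖f r - g r‖ := by
    have := norm_add_le (g r) (f r - g r)
    rwa [add_sub_cancel] at this
  calc ‖f r‖ * U n r ≤ (‖g r‖ + ‖f r - g r‖) * U n r :=
        mul_le_mul_of_nonneg_right h1 (U_nonneg _ _)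
    _ = ‖g r‖ * U n r + ‖f r - g r‖ * U n r := by ring
    _ ≤ ‖g r‖ * U n r + ‖f r - g r‖ := by
        gcongr
        exact mul_le_of_le_one_right (norm_nonneg _) (U_le n r)

/-- uniform smallness of the tails along a continuous path -/
theorem tail_uniform {b : ℝ → ℚ → ℂ} (hb : ∀ x, 0 < x → Summable fun r => ‖b x r‖)
    (hb0 : ∀ x, 0 < x → ∀ r ≤ 0, b x r = 0)
    (hcont : ∀ x, 0 < x → Tendsto (fun y => ∑' r, ‖b y r - b x r‖) (𝓝 x) (𝓝 0))
    {u v : ℝ} (hu : 0 < u) {ε : ℝ} (hε : 0 < ε) :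
    ∃ n₀ : ℕ, ∀ n, n₀ ≤ n → ∀ x ∈ Set.Icc u v, tail n (b x) ≤ ε := by
  have hloc : ∀ x ∈ Set.Icc u v, ∃ s ∈ 𝓝[Set.Icc u v] x, ∃ n₀ : ℕ, ∀ n, n₀ ≤ n → ∀ y ∈ s,
      tail n (b y) ≤ ε := by
    intro x hx
    have hx0 : 0 < x := lt_of_lt_of_le hu hx.1
    have h1 : ∀ᶠ y in 𝓝 x, ∑' r, ‖b y r - b x r‖ < ε / 2 :=
      (hcont x hx0).eventually (gt_mem_nhds (half_pos hε))
    have h2 : ∀ᶠ y in 𝓝 x, 0 < y := lt_mem_nhds hx0
    have h3 : ∀ᶠ n in atTop, tail n (b x) < ε / 2 :=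
      (tail_tendsto (hb x hx0) (hb0 x hx0)).eventually (gt_mem_nhds (half_pos hε))
    obtain ⟨n₀, hn₀⟩ := eventually_atTop.1 h3
    refine ⟨{y | ∑' r, ‖b y r - b x r‖ < ε / 2 ∧ 0 < y}, mem_nhdsWithin_of_mem_nhds (h1.and h2),
      n₀, ?_⟩
    intro n hn y hy
    have h4 := tail_le_add (n := n) (hb y hy.2) (hb x hx0)
    have h5 := hn₀ n hn
    linarith [hy.1]
  refine isCompact_Icc.induction_on (p := fun s => ∃ n₀ : ℕ, ∀ n, n₀ ≤ n → ∀ x ∈ s,
    tail n (b x) ≤ ε) ⟨0, fun n _ x hx => absurd hx (Set.notMem_empty x)⟩ ?_ ?_ hloc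
  · rintro s s' hss ⟨n₀, h⟩
    exact ⟨n₀, fun n hn x hx => h n hn x (hss hx)⟩
  · rintro s s' ⟨n₀, h⟩ ⟨n₁, h'⟩
    refine ⟨max n₀ n₁, fun n hn x hx => ?_⟩
    rcases hx with hx | hx
    · exact h n ((le_max_left _ _).trans hn) x hx
    · exact h' n ((le_max_right _ _).trans hn) x hx

end Pool.Agent.Y282.CS
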