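import Mathlib

/-!
Propagation of smallness: interpolation at points on small circles, and a three circles estimate.
-/

set_option autoImplicit false

open Filter Topology Polynomial

namespace Pool.Agent.Y282.CS

theorem prod_div_fact (A : ℝ) (k : ℕ) :
    ∏ i ∈ Finset.range k, (A / ((i : ℝ) + 1)) = A ^ k / (k.factorial : ℝ) := by
  induction k with
  | zero => simp
  | succ k ih =>
    rw [Finset.prod_range_succ, ih, Nat.factorial_succ]
    push_cast
    have h1 : ((k.factorial : ℕ) : ℝ) ≠ 0 := by exact_mod_cast k.factorial_ne_zero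
    have h2 : (k : ℝ) + 1 ≠ 0 := by positivity
    field_simp
    ring

theorem basis_bound {m : ℕ} {z₁ : ℂ} {θ : ℝ} (hθ : 0 < θ) {x : ℕ → ℂ}
    (hx : ∀ j < m, ‖x j - z₁‖ = ((j : ℝ) + 1) * (θ / (16 * m))) {j : ℕ} (hj : j < m) {z : ℂ}
    (hz : ‖z - z₁‖ ≤ θ / 2) :
    ‖(Lagrange.basis (Finset.range m) x j).eval z‖ ≤ Real.exp (18 * m) := by
  have hm : (0 : ℝ) < m := by
    have : 0 < m := by omega
    exact_mod_cast this
  set g : ℕ → ℝ := fun i => if i = j then 1 else 9 * m / |(j : ℝ) - i| with hg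
  have h1 : ‖(Lagrange.basis (Finset.range m) x j).eval z‖ ≤ ∏ i ∈ (Finset.range m).erase j, g i := by
    unfold Lagrange.basis
    rw [eval_prod, norm_prod]
    apply Finset.prod_le_prod (fun _ _ => norm_nonneg _)
    intro i hi
    rw [Finset.mem_erase, Finset.mem_range] at hi
    have hij : (0 : ℝ) < |(j : ℝ) - i| := by
      rw [abs_pos, sub_ne_zero]
      exact fun h => hi.1 (by exact_mod_cast h.symm)
    rw [hg]
    simp only
    rw [if_neg hi.1]
    unfold Lagrange.basisDivisor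
    rw [eval_mul, eval_C, eval_sub, eval_X, eval_C, norm_mul, norm_inv]
    have h2 : |(j : ℝ) - i| * (θ / (16 * m)) ≤ ‖x j - x i‖ := by
      have h3 := abs_norm_sub_norm_le (x j - z₁) (x i - z₁)
      rw [hx j hj, hx i hi.2] at h3
      have h4 : x j - z₁ - (x i - z₁) = x j - x i := by ring
      rw [h4] at h3
      have h5 : ((j : ℝ) + 1) * (θ / (16 * m)) - ((i : ℝ) + 1) * (θ / (16 * m))
          = ((j : ℝ) - i) * (θ / (16 * m)) := by ring
      rw [h5, abs_mul, abs_of_pos (by positivity : (0 : ℝ) < θ / (16 * m))] at h3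
      exact h3
    have h6 : ‖z - x i‖ ≤ 9 * θ / 16 := by
      have h7 : z - x i = (z - z₁) - (x i - z₁) := by ring
      rw [h7]
      refine (norm_sub_le _ _).trans ?_
      rw [hx i hi.2]
      have h8 : ((i : ℝ) + 1) * (θ / (16 * m)) ≤ m * (θ / (16 * m)) := by
        apply mul_le_mul_of_nonneg_right _ (by positivity)
        have : i + 1 ≤ m := hi.2
        exact_mod_cast this
      have h9 : (m : ℝ) * (θ / (16 * m)) = θ / 16 := by field_simp
      linarith
    have h10 : (0 : ℝ) < |(j : ℝ) - i| * (θ / (16 * m)) := by positivity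
    calc ‖x j - x i‖⁻¹ * ‖z - x i‖ ≤ (|(j : ℝ) - i| * (θ / (16 * m)))⁻¹ * (9 * θ / 16) := by
          apply mul_le_mul _ h6 (norm_nonneg _) (by positivity)
          exact inv_anti₀ h10 h2
      _ = 9 * m / |(j : ℝ) - i| := by
          field_simp
  refine h1.trans ?_
  have h2 : ∏ i ∈ (Finset.range m).erase j, g i = ∏ i ∈ Finset.range m, g i := by
    apply Finset.prod_erase
    rw [hg]
    simp
  rw [h2]
  obtain ⟨k, hk⟩ : ∃ k, m = j + 1 + k := ⟨m - (j + 1), by omega⟩
  have h3 : ∏ i ∈ Finset.range m, g i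
      = (9 * (m : ℝ)) ^ j / (j.factorial : ℝ) * ((9 * (m : ℝ)) ^ k / (k.factorial : ℝ)) := by
    conv_lhs => rw [hk]
    rw [Finset.prod_range_add, Finset.prod_range_succ]
    have h4 : g j = 1 := by rw [hg]; simp
    rw [h4, mul_one, ← prod_div_fact, ← prod_div_fact]
    congr 1
    · rw [← Finset.prod_range_reflect]
      apply Finset.prod_congr rfl
      intro i hi
      rw [Finset.mem_range] at hi
      rw [hg]
      simp only
      rw [if_neg (by omega)]
      congr 1
      have h5 : ((j - 1 - i : ℕ) : ℝ) = (j : ℝ) - 1 - i := by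
        rw [Nat.cast_sub (by omega), Nat.cast_sub (by omega)]
        simp
      rw [h5]
      have h6 : (j : ℝ) - ((j : ℝ) - 1 - i) = i + 1 := by ring
      rw [h6, abs_of_pos (by positivity)]
    · apply Finset.prod_congr rfl
      intro i _
      rw [hg]
      simp only
      rw [if_neg (by omega)]
      congr 1
      push_cast
      have h6 : (j : ℝ) - ((j : ℝ) + 1 + i) = -(i + 1) := by ring
      rw [h6, abs_neg, abs_of_pos (by positivity)]
  rw [h3]
  have h4 := Real.pow_div_factorial_le_exp (x := 9 * (m : ℝ)) (by positivity) j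
  have h5 := Real.pow_div_factorial_le_exp (x := 9 * (m : ℝ)) (by positivity) k
  calc (9 * (m : ℝ)) ^ j / (j.factorial : ℝ) * ((9 * (m : ℝ)) ^ k / (k.factorial : ℝ))
      ≤ Real.exp (9 * m) * Real.exp (9 * m) :=
        mul_le_mul h4 h5 (by positivity) (Real.exp_pos _).le
    _ = Real.exp (18 * m) := by
        rw [← Real.exp_add]
        congr 1
        ring

theorem interp_bound {P : ℂ[X]} {z₁ : ℂ} {θ D K : ℝ} (hθ : 0 < θ) (hK0 : 0 ≤ K) {m : ℕ}
    (hm : 0 < m) (hD : ∀ z : ℂ, ‖z - z₁‖ ≤ θ / 2 → ‖P.eval z‖ ≤ D) {x : ℕ → ℂ}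
    (hx : ∀ j < m, ‖x j - z₁‖ = ((j : ℝ) + 1) * (θ / (16 * m)))
    (hK : ∀ j < m, ‖P.eval (x j)‖ ≤ K) {z : ℂ} (hz : ‖z - z₁‖ ≤ θ / 16) :
    ‖P.eval z‖ ≤ 2 * (K * Real.exp (19 * m)) + (2 / 7) ^ m * D := by
  have hmr : (0 : ℝ) < m := by exact_mod_cast hm
  have hinj : Set.InjOn x (Finset.range m) := by
    intro i hi j hj hij
    rw [Finset.coe_range, Set.mem_Iio] at hi hj
    have h1 := hx i hi
    rw [hij, hx j hj] at h1
    have h2 : (0 : ℝ) < θ / (16 * m) := by positivity
    have h3 := mul_right_cancel₀ h2.ne' h1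
    have : (j : ℝ) = i := by linarith
    exact_mod_cast this.symm
  set Lg : ℂ[X] := Lagrange.interpolate (Finset.range m) x (fun i => P.eval (x i)) with hLg
  set K' : ℝ := K * Real.exp (19 * m) with hK'
  have hK'0 : 0 ≤ K' := by positivity
  have hLb : ∀ w : ℂ, ‖w - z₁‖ ≤ θ / 2 → ‖Lg.eval w‖ ≤ K' := by
    intro w hw
    rw [hLg, Lagrange.interpolate_apply, eval_finsetSum]
    refine (norm_sum_le _ _).trans ?_
    have h1 : ∀ i ∈ Finset.range m, ‖(C (P.eval (x i)) * Lagrange.basis (Finset.range m) x i).eval w‖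
        ≤ K * Real.exp (18 * m) := by
      intro i hi
      rw [Finset.mem_range] at hi
      rw [eval_mul, eval_C, norm_mul]
      exact mul_le_mul (hK i hi) (basis_bound hθ hx hi hw) (norm_nonneg _) hK0
    refine (Finset.sum_le_sum h1).trans ?_
    rw [Finset.sum_const, Finset.card_range, nsmul_eq_mul]
    have h2 : (m : ℝ) ≤ Real.exp m := by
      have := Real.add_one_le_exp (m : ℝ)
      linarith
    calc (m : ℝ) * (K * Real.exp (18 * m)) ≤ Real.exp m * (K * Real.exp (18 * m)) :=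
          mul_le_mul_of_nonneg_right h2 (by positivity)
      _ = K * (Real.exp m * Real.exp (18 * m)) := by ring
      _ = K' := by
          rw [← Real.exp_add, hK']
          congr 2
          ring
  -- divisibility
  obtain ⟨Q, hQ⟩ : Lagrange.nodal (Finset.range m) x ∣ P - Lg := by
    rw [Lagrange.nodal_eq]
    apply Finset.prod_dvd_of_coprime
    · intro i hi j hj hij
      apply Polynomial.isCoprime_X_sub_C_of_isUnit_sub
      rw [isUnit_iff_ne_zero, sub_ne_zero]
      exact fun h => hij (hinj hi hj h)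
    · intro i hi
      rw [Polynomial.dvd_iff_isRoot, IsRoot.def, eval_sub, hLg,
        Lagrange.eval_interpolate_at_node _ hinj hi, sub_self]
  have hPQ : ∀ w : ℂ, P.eval w = Lg.eval w + (∏ i ∈ Finset.range m, (w - x i)) * Q.eval w := by
    intro w
    have h1 := congrArg (fun R : ℂ[X] => R.eval w) hQ
    simp only [eval_sub, eval_mul, Lagrange.eval_nodal] at h1
    rw [← h1]
    ring
  have hxi : ∀ i ∈ Finset.range m, ‖x i - z₁‖ ≤ θ / 16 := by
    intro i hi
    rw [Finset.mem_range] at hi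
    rw [hx i hi]
    have h8 : ((i : ℝ) + 1) * (θ / (16 * m)) ≤ m * (θ / (16 * m)) := by
      apply mul_le_mul_of_nonneg_right _ (by positivity)
      have : i + 1 ≤ m := hi
      exact_mod_cast this
    have h9 : (m : ℝ) * (θ / (16 * m)) = θ / 16 := by field_simp
    linarith
  have hQs : ∀ w : ℂ, ‖w - z₁‖ = θ / 2 → ‖Q.eval w‖ ≤ (D + K') / (7 * θ / 16) ^ m := by
    intro w hw
    rw [le_div_iff₀ (by positivity)]
    have h1 : (7 * θ / 16) ^ m ≤ ‖∏ i ∈ Finset.range m, (w - x i)‖ := by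
      rw [norm_prod, ← Finset.card_range m, ← Finset.prod_const, Finset.card_range]
      apply Finset.prod_le_prod (fun _ _ => by positivity)
      intro i hi
      have h2 : w - x i = (w - z₁) - (x i - z₁) := by ring
      rw [h2]
      have h3 := norm_sub_norm_le (w - z₁) (x i - z₁)
      have h4 := hxi i hi
      rw [hw] at h3
      linarith
    have h5 : (∏ i ∈ Finset.range m, (w - x i)) * Q.eval w = P.eval w - Lg.eval w := by
      rw [hPQ w]; ring
    calc ‖Q.eval w‖ * (7 * θ / 16) ^ m ≤ ‖Q.eval w‖ * ‖∏ i ∈ Finset.range m, (w - x i)‖ :=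
          mul_le_mul_of_nonneg_left h1 (norm_nonneg _)
      _ = ‖P.eval w - Lg.eval w‖ := by rw [← h5, norm_mul, mul_comm]
      _ ≤ ‖P.eval w‖ + ‖Lg.eval w‖ := norm_sub_le _ _
      _ ≤ D + K' := add_le_add (hD w hw.le) (hLb w hw.le)
  have hQz : ‖Q.eval z‖ ≤ (D + K') / (7 * θ / 16) ^ m := by
    refine Complex.norm_le_of_forall_mem_frontier_norm_le (U := Metric.ball z₁ (θ / 2))
      Metric.isBounded_ball (f := fun w => Q.eval w) Q.differentiable.diffContOnCl ?_ ?_
    · intro w hw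
      rw [frontier_ball _ (by positivity : θ / 2 ≠ 0), Metric.mem_sphere, dist_eq_norm] at hw
      exact hQs w hw
    · apply subset_closure
      rw [Metric.mem_ball, dist_eq_norm]
      linarith
  have hnz : ‖∏ i ∈ Finset.range m, (z - x i)‖ ≤ (θ / 8) ^ m := by
    rw [norm_prod, ← Finset.card_range m, ← Finset.prod_const, Finset.card_range]
    apply Finset.prod_le_prod (fun _ _ => norm_nonneg _)
    intro i hi
    have h2 : z - x i = (z - z₁) - (x i - z₁) := by ring
    rw [h2]
    refine (norm_sub_le _ _).trans ?_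
    have h4 := hxi i hi
    linarith
  have hDK : 0 ≤ D + K' := by
    have := (norm_nonneg _).trans (hD z₁ (by rw [sub_self, norm_zero]; positivity))
    linarith
  rw [hPQ z]
  have h7 : (θ / 8) ^ m * ((D + K') / (7 * θ / 16) ^ m) = (2 / 7) ^ m * (D + K') := by
    rw [mul_div_assoc', mul_comm ((θ / 8) ^ m), mul_div_assoc, ← div_pow, mul_comm]
    congr 2
    field_simp
    norm_num
  have h8 : ((2 : ℝ) / 7) ^ m ≤ 1 := pow_le_one₀ (by norm_num) (by norm_num)
  calc ‖Lg.eval z + (∏ i ∈ Finset.range m, (z - x i)) * Q.eval z‖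
      ≤ ‖Lg.eval z‖ + ‖(∏ i ∈ Finset.range m, (z - x i)) * Q.eval z‖ := norm_add_le _ _
    _ ≤ K' + (θ / 8) ^ m * ((D + K') / (7 * θ / 16) ^ m) := by
        apply add_le_add (hLb z (by linarith))
        rw [norm_mul]
        exact mul_le_mul hnz hQz (norm_nonneg _) (by positivity)
    _ = K' + (2 / 7) ^ m * K' + (2 / 7) ^ m * D := by rw [h7]; ring
    _ ≤ 2 * K' + (2 / 7) ^ m * D := by nlinarith

/-- a three circles estimate -/
theorem annulus_bound {P : ℂ[X]} {z₁ : ℂ} {θ D : ℝ} (hθ : 0 < θ) (p : ℕ)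
    (hout : ∀ z : ℂ, ‖z - z₁‖ = θ → ‖P.eval z‖ ≤ D)
    (hin : ∀ z : ℂ, ‖z - z₁‖ = θ / 16 → ‖P.eval z‖ ≤ D / 16 ^ p) {z : ℂ}
    (h1 : θ / 16 ≤ ‖z - z₁‖) (h2 : ‖z - z₁‖ ≤ θ) :
    ‖P.eval z‖ ≤ D * (‖z - z₁‖ / θ) ^ p := by
  have hcn : Continuous fun w : ℂ => ‖w - z₁‖ := by fun_prop
  set U : Set ℂ := {w : ℂ | θ / 16 < ‖w - z₁‖ ∧ ‖w - z₁‖ < θ} with hU
  have hcl : closure U ⊆ {w : ℂ | θ / 16 ≤ ‖w - z₁‖ ∧ ‖w - z₁‖ ≤ θ} := by
    apply closure_minimal
    · intro w hw
      exact ⟨hw.1.le, hw.2.le⟩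
    · exact (isClosed_le continuous_const hcn).inter (isClosed_le hcn continuous_const)
  have hopen : IsOpen U := (isOpen_lt continuous_const hcn).inter (isOpen_lt hcn continuous_const)
  have hbd : Bornology.IsBounded U := by
    apply Metric.isBounded_ball.subset (s := U) (t := Metric.ball z₁ θ)
    intro w hw
    rw [Metric.mem_ball, dist_eq_norm]
    exact hw.2
  have hfr : ∀ w ∈ frontier U, ‖w - z₁‖ = θ / 16 ∨ ‖w - z₁‖ = θ := by
    intro w hw
    rw [hopen.frontier_eq] at hw
    have h3 := hcl hw.1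
    have h4 : ¬ (θ / 16 < ‖w - z₁‖ ∧ ‖w - z₁‖ < θ) := hw.2
    by_cases h5 : θ / 16 < ‖w - z₁‖
    · right
      by_contra h6
      exact h4 ⟨h5, lt_of_le_of_ne h3.2 h6⟩
    · left
      push Not at h5
      exact le_antisymm h5 h3.1
  have hend : ∀ w : ℂ, (‖w - z₁‖ = θ / 16 ∨ ‖w - z₁‖ = θ) →
      ‖P.eval w‖ ≤ D * (‖w - z₁‖ / θ) ^ p := by
    rintro w (h3 | h3)
    · refine (hin w h3).trans (le_of_eq ?_)
      rw [h3]
      have h4 : θ / 16 / θ = 1 / 16 := by field_simp
      rw [h4, one_div, inv_pow, div_eq_mul_inv]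
    · refine (hout w h3).trans (le_of_eq ?_)
      rw [h3, div_self hθ.ne', one_pow, mul_one]
  by_cases h3 : ‖z - z₁‖ = θ / 16 ∨ ‖z - z₁‖ = θ
  · exact hend z h3
  · push Not at h3
    have hzU : z ∈ U := ⟨lt_of_le_of_ne h1 (Ne.symm h3.1), lt_of_le_of_ne h2 h3.2⟩
    have hd : DiffContOnCl ℂ (fun w => P.eval w / (w - z₁) ^ p) U := by
      apply DifferentiableOn.diffContOnCl
      intro w hw
      have h4 := hcl hw
      have h5 : w - z₁ ≠ 0 := by
        intro h6
        have h7 := h4.1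
        rw [h6, norm_zero] at h7
        linarith
      apply DifferentiableAt.differentiableWithinAt
      apply DifferentiableAt.div P.differentiable.differentiableAt (by fun_prop)
      exact pow_ne_zero _ h5
    have h4 := Complex.norm_le_of_forall_mem_frontier_norm_le hbd hd (C := D / θ ^ p) (by
      intro w hw
      have h5 := hfr w hw
      have h6 := hend w h5
      have h7 : 0 < ‖w - z₁‖ := by
        rcases h5 with h | h
        · rw [h]; positivity
        · rw [h]; exact hθ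
      rw [norm_div, norm_pow, div_le_iff₀ (by positivity)]
      refine h6.trans (le_of_eq ?_)
      rw [div_pow]
      field_simp) (subset_closure hzU)
    have h7 : 0 < ‖z - z₁‖ := by linarith
    rw [norm_div, norm_pow, div_le_iff₀ (by positivity)] at h4
    refine h4.trans (le_of_eq ?_)
    rw [div_pow]
    field_simp

end Pool.Agent.Y282.CS
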