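import Mathlib

/-!
A discrete measure on the positive rationals whose Laplace transform decays like `exp (-a σ)` along
the positive reals is supported in `[a, ∞)`.
-/

set_option autoImplicit false

open Filter Topology Complex

namespace Pool.Agent.Y282.CS

/-- averages of powers of a number of modulus one tend to zero -/
theorem avg_pow {w : ℂ} (hw : ‖w‖ = 1) (h1 : w ≠ 1) :
    Tendsto (fun M : ℕ => ((M : ℂ) + 1)⁻¹ * ∑ k ∈ Finset.range (M + 1), w ^ k) atTop (𝓝 0) := by
  have hne : ‖w - 1‖ ≠ 0 := by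
    rw [norm_ne_zero_iff]
    exact sub_ne_zero.2 h1
  have hpos : 0 < ‖w - 1‖ := lt_of_le_of_ne (norm_nonneg _) (Ne.symm hne)
  have hb : ∀ M : ℕ, ‖((M : ℂ) + 1)⁻¹ * ∑ k ∈ Finset.range (M + 1), w ^ k‖
      ≤ (2 / ‖w - 1‖) * (1 / ((M : ℝ) + 1)) := by
    intro M
    rw [norm_mul, norm_inv]
    have h2 : ‖((M : ℂ) + 1)‖ = (M : ℝ) + 1 := by
      have : ((M : ℂ) + 1) = (((M : ℝ) + 1 : ℝ) : ℂ) := by push_cast; ring
      rw [this, Complex.norm_real, Real.norm_eq_abs, abs_of_pos (by positivity)]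
    rw [h2, geom_sum_eq h1, norm_div]
    have h3 : ‖w ^ (M + 1) - 1‖ ≤ 2 := by
      refine (norm_sub_le _ _).trans ?_
      rw [norm_pow, hw, one_pow, norm_one]
      norm_num
    have h4 : ‖w ^ (M + 1) - 1‖ / ‖w - 1‖ ≤ 2 / ‖w - 1‖ := by gcongr
    calc ((M : ℝ) + 1)⁻¹ * (‖w ^ (M + 1) - 1‖ / ‖w - 1‖)
        ≤ ((M : ℝ) + 1)⁻¹ * (2 / ‖w - 1‖) := by gcongr
      _ = (2 / ‖w - 1‖) * (1 / ((M : ℝ) + 1)) := by rw [one_div]; ring
  have hl : Tendsto (fun M : ℕ => (2 / ‖w - 1‖) * (1 / ((M : ℝ) + 1))) atTop (𝓝 0) := by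
    have := (tendsto_one_div_add_atTop_nhds_zero_nat (𝕜 := ℝ)).const_mul (2 / ‖w - 1‖)
    rwa [mul_zero] at this
  exact squeeze_zero_norm hb hl

/-- uniqueness of the coefficients of an absolutely convergent exponential sum with bounded
frequencies -/
theorem coeff_unique {c : ℚ → ℂ} (hc : Summable fun r => ‖c r‖) {a : ℝ} (ha : 0 < a)
    (hsupp : ∀ r : ℚ, c r ≠ 0 → 0 ≤ (r : ℝ) ∧ (r : ℝ) ≤ a)
    (h0 : ∀ τ : ℝ, ∑' r : ℚ, c r * exp ((((a - r) * τ : ℝ) : ℂ) * I) = 0) (r₀ : ℚ) : c r₀ = 0 := by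
  by_contra hr₀
  have hr₀s := hsupp r₀ hr₀
  set τ₀ : ℝ := 1 / (a + 1) with hτ₀
  have hτ₀p : 0 < τ₀ := by positivity
  set w : ℚ → ℂ := fun r => exp ((((r₀ - r) * τ₀ : ℝ) : ℂ) * I) with hw
  have hwn : ∀ r, ‖w r‖ = 1 := fun r => by rw [hw]; exact norm_exp_ofReal_mul_I _
  have hw1 : ∀ r, c r ≠ 0 → r ≠ r₀ → w r ≠ 1 := by
    intro r hr hne h1
    have h2 := hsupp r hr
    rw [hw] at h1
    simp only at h1
    rw [exp_eq_one_iff] at h1
    obtain ⟨n, hn⟩ := h1
    have h3 : (((r₀ - r) * τ₀ : ℝ) : ℂ) = ((n * (2 * Real.pi) : ℝ) : ℂ) := by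
      have hI : I ≠ 0 := I_ne_zero
      apply mul_right_cancel₀ hI
      rw [hn]
      push_cast
      ring
    have h4 : ((r₀ : ℝ) - r) * τ₀ = n * (2 * Real.pi) := by exact_mod_cast h3
    have h5 : |((r₀ : ℝ) - r) * τ₀| < 1 := by
      rw [abs_mul, abs_of_pos hτ₀p, hτ₀, mul_one_div, div_lt_one (by positivity)]
      rw [abs_lt]
      constructor <;> linarith [hr₀s.1, hr₀s.2, h2.1, h2.2]
    have hpi := Real.pi_gt_three
    have hn0 : n = 0 := by
      by_contra hn0
      have h6 : (1 : ℝ) ≤ |(n : ℝ)| := by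
        rw [← Int.cast_abs]
        exact_mod_cast Int.one_le_abs hn0
      rw [h4, abs_mul, abs_of_pos (by positivity : (0 : ℝ) < 2 * Real.pi)] at h5
      nlinarith
    rw [hn0] at h4
    have h7 : ((r₀ : ℝ) - r) * τ₀ = 0 := by rw [h4]; simp
    rcases mul_eq_zero.1 h7 with h8 | h8
    · apply hne
      have : (r : ℝ) = r₀ := by linarith
      exact_mod_cast this
    · exact hτ₀p.ne' h8
  set A : ℕ → ℚ → ℂ := fun M r =>
    c r * (((M : ℂ) + 1)⁻¹ * ∑ k ∈ Finset.range (M + 1), w r ^ k) with hA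
  have hAn : ∀ M r, ‖A M r‖ ≤ ‖c r‖ := by
    intro M r
    rw [hA]
    simp only
    rw [norm_mul, norm_mul, norm_inv]
    have h2 : ‖((M : ℂ) + 1)‖ = (M : ℝ) + 1 := by
      have : ((M : ℂ) + 1) = (((M : ℝ) + 1 : ℝ) : ℂ) := by push_cast; ring
      rw [this, Complex.norm_real, Real.norm_eq_abs, abs_of_pos (by positivity)]
    have h3 : ‖∑ k ∈ Finset.range (M + 1), w r ^ k‖ ≤ (M : ℝ) + 1 := by
      refine (norm_sum_le _ _).trans ?_
      simp [norm_pow, hwn r]
    rw [h2]
    have h4 : ((M : ℝ) + 1)⁻¹ * ‖∑ k ∈ Finset.range (M + 1), w r ^ k‖ ≤ 1 := by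
      rw [inv_mul_le_iff₀ (by positivity), mul_one]
      exact h3
    exact mul_le_of_le_one_right (norm_nonneg _) h4
  have hlim : ∀ r, Tendsto (fun M => A M r) atTop (𝓝 (if r = r₀ then c r₀ else 0)) := by
    intro r
    by_cases hr : r = r₀
    · rw [if_pos hr, hr]
      have : ∀ M, A M r₀ = c r₀ := by
        intro M
        rw [hA]
        simp only
        have h1 : w r₀ = 1 := by rw [hw]; simp
        rw [h1]
        simp only [one_pow, Finset.sum_const, Finset.card_range, nsmul_eq_mul, mul_one]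
        have h2 : ((M : ℂ) + 1) ≠ 0 := by exact_mod_cast Nat.succ_ne_zero M
        push_cast
        rw [inv_mul_cancel₀ h2, mul_one]
      simp only [this]
      exact tendsto_const_nhds
    · rw [if_neg hr]
      by_cases hcr : c r = 0
      · have : ∀ M, A M r = 0 := by
          intro M
          rw [hA]
          simp [hcr]
        simp only [this]
        exact tendsto_const_nhds
      · have := (avg_pow (hwn r) (hw1 r hcr hr)).const_mul (c r)
        rw [mul_zero] at this
        exact this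
  have hT : Tendsto (fun M => ∑' r, A M r) atTop (𝓝 (∑' r, if r = r₀ then c r₀ else 0)) :=
    tendsto_tsum_of_dominated_convergence hc hlim (Eventually.of_forall fun M r => hAn M r)
  rw [tsum_ite_eq] at hT
  have hzero : ∀ M, ∑' r, A M r = 0 := by
    intro M
    have h1 : ∀ k : ℕ, Summable fun r => c r * w r ^ k := by
      intro k
      apply Summable.of_norm_bounded hc
      intro r
      rw [norm_mul, norm_pow, hwn, one_pow, mul_one]
    have h2 : ∀ k : ℕ, ∑' r, c r * w r ^ k = 0 := by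
      intro k
      have h5 := h0 (τ₀ * k)
      have h6 : ∀ r : ℚ, c r * w r ^ k
          = exp (((((r₀ : ℝ) - a) * (τ₀ * k) : ℝ) : ℂ) * I) *
            (c r * exp ((((a - r) * (τ₀ * k) : ℝ) : ℂ) * I)) := by
        intro r
        have h7 : w r ^ k = exp (((((r₀ : ℝ) - a) * (τ₀ * k) : ℝ) : ℂ) * I) *
            exp ((((a - r) * (τ₀ * k) : ℝ) : ℂ) * I) := by
          rw [hw]
          simp only
          rw [← Complex.exp_nat_mul, ← Complex.exp_add]
          congr 1
          push_cast
          ring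
        rw [h7]
        ring
      simp only [h6]
      rw [tsum_mul_left, h5, mul_zero]
    have h3 : ∀ r, A M r = ((M : ℂ) + 1)⁻¹ * ∑ k ∈ Finset.range (M + 1), c r * w r ^ k := by
      intro r
      rw [hA]
      simp only
      rw [← Finset.mul_sum]
      ring
    simp only [h3]
    rw [tsum_mul_left, Summable.tsum_finsetSum (fun k _ => h1 k)]
    simp [h2]
  simp only [hzero] at hT
  exact hr₀ (tendsto_nhds_unique hT tendsto_const_nhds)

/-- **support lemma** -/
theorem support_lemma {c : ℚ → ℂ} (hc : Summable fun r => ‖c r‖)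
    (hpos : ∀ r : ℚ, r ≤ 0 → c r = 0) {a D : ℝ} (ha : 0 < a)
    (hG : ∀ σ : ℝ, 0 < σ → ‖∑' r : ℚ, c r * exp (((-(σ * r) : ℝ)) : ℂ)‖ ≤ D * Real.exp (-(a * σ))) :
    ∀ r : ℚ, (r : ℝ) < a → c r = 0 := by
  classical
  set c' : ℚ → ℂ := fun r => if (r : ℝ) < a then c r else 0 with hc'
  have hc'le : ∀ r, ‖c' r‖ ≤ ‖c r‖ := by
    intro r
    rw [hc']
    simp only
    split_ifs
    · exact le_rfl
    · rw [norm_zero]; exact norm_nonneg _
  have hc's : Summable fun r => ‖c' r‖ :=
    Summable.of_nonneg_of_le (fun r => norm_nonneg _) hc'le hc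
  have hsupp : ∀ r : ℚ, c' r ≠ 0 → 0 ≤ (r : ℝ) ∧ (r : ℝ) ≤ a := by
    intro r hr
    rw [hc'] at hr
    simp only at hr
    split_ifs at hr with h
    · refine ⟨?_, h.le⟩
      by_contra h2
      push Not at h2
      apply hr
      apply hpos
      have : r < 0 := by exact_mod_cast h2
      exact this.le
    · exact absurd rfl hr
  set S : ℝ := ∑' r, ‖c' r‖ with hS
  set H : ℂ → ℂ := fun s => ∑' r : ℚ, c' r * exp (((a - r : ℝ) : ℂ) * s) with hH
  have hterm : ∀ (r : ℚ) (s : ℂ) (B : ℝ), s.re ≤ B → 0 ≤ B →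
      ‖c' r * exp (((a - r : ℝ) : ℂ) * s)‖ ≤ ‖c' r‖ * Real.exp (a * B) := by
    intro r s B hB hB0
    by_cases hr : c' r = 0
    · rw [hr]; simp
    · rw [norm_mul, Complex.norm_exp, Complex.re_ofReal_mul]
      apply mul_le_mul_of_nonneg_left _ (norm_nonneg _)
      apply Real.exp_le_exp.2
      have h1 := hsupp r hr
      have h2 : (a - r) * s.re ≤ (a - r) * B := mul_le_mul_of_nonneg_left hB (by linarith [h1.2])
      have h3 : (a - r) * B ≤ a * B := mul_le_mul_of_nonneg_right (by linarith [h1.1]) hB0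
      linarith
  have hsum : ∀ s : ℂ, Summable fun r => ‖c' r * exp (((a - r : ℝ) : ℂ) * s)‖ := by
    intro s
    exact Summable.of_nonneg_of_le (fun r => norm_nonneg _)
      (fun r => hterm r s (max s.re 0) (le_max_left _ _) (le_max_right _ _)) (hc's.mul_right _)
  have hbound : ∀ (s : ℂ) (B : ℝ), s.re ≤ B → 0 ≤ B → ‖H s‖ ≤ S * Real.exp (a * B) := by
    intro s B hB hB0
    rw [hH]
    refine (norm_tsum_le_tsum_norm (hsum s)).trans ?_
    rw [hS, ← tsum_mul_right]
    exact (hsum s).tsum_le_tsum (fun r => hterm r s B hB hB0) (hc's.mul_right _)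
  have hS0 : 0 ≤ S := tsum_nonneg fun r => norm_nonneg _
  have hleft : ∀ s : ℂ, s.re ≤ 0 → ‖H s‖ ≤ S := by
    intro s hs
    have := hbound s 0 hs le_rfl
    simpa using this
  have hdiff : Differentiable ℂ H := by
    intro s
    have h1 : DifferentiableOn ℂ H {z : ℂ | z.re < |s.re| + 1} := by
      rw [hH]
      refine differentiableOn_tsum_of_summable_norm
        (u := fun r => ‖c' r‖ * Real.exp (a * (|s.re| + 1))) (hc's.mul_right _)
        (fun r => ?_) (isOpen_lt continuous_re continuous_const) (fun r w hw => ?_)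
      · exact (differentiable_const _ |>.mul
          ((differentiable_const _ |>.mul differentiable_id).cexp)).differentiableOn
      · exact hterm r w _ (le_of_lt hw) (by positivity)
    exact h1.differentiableAt ((isOpen_lt continuous_re continuous_const).mem_nhds (by
      show s.re < |s.re| + 1
      linarith [le_abs_self s.re]))
  -- bound on the positive reals
  have hreal : ∀ σ : ℝ, 0 < σ → ‖H σ‖ ≤ D + ∑' r, ‖c r‖ := by
    intro σ hσ
    have hsG : ∀ r : ℚ, ‖c r * exp (((-(σ * r) : ℝ)) : ℂ)‖ ≤ ‖c r‖ := by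
      intro r
      by_cases hr : r ≤ 0
      · rw [hpos r hr]; simp
      · push Not at hr
        rw [norm_mul, Complex.norm_exp_ofReal]
        apply mul_le_of_le_one_right (norm_nonneg _)
        apply Real.exp_le_one_iff.2
        have : (0 : ℝ) < r := by exact_mod_cast hr
        have := mul_pos hσ this
        linarith
    have hsG' : Summable fun r : ℚ => c r * exp (((-(σ * r) : ℝ)) : ℂ) :=
      Summable.of_norm_bounded hc hsG
    have hsc'' : ∀ r : ℚ, ‖(if (r : ℝ) < a then 0 else c r) * exp (((a - r : ℝ) : ℂ) * σ)‖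
        ≤ ‖c r‖ := by
      intro r
      split_ifs with h
      · simp
      · push Not at h
        rw [norm_mul, Complex.norm_exp, Complex.re_ofReal_mul, Complex.ofReal_re]
        apply mul_le_of_le_one_right (norm_nonneg _)
        apply Real.exp_le_one_iff.2
        exact mul_nonpos_of_nonpos_of_nonneg (by linarith) hσ.le
    have hsc''s : Summable fun r : ℚ => (if (r : ℝ) < a then 0 else c r) *
        exp (((a - r : ℝ) : ℂ) * σ) := Summable.of_norm_bounded hc hsc''
    have h1 : H σ = exp (((a * σ : ℝ)) : ℂ) * ∑' r : ℚ, c r * exp (((-(σ * r) : ℝ)) : ℂ)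
        - ∑' r : ℚ, (if (r : ℝ) < a then 0 else c r) * exp (((a - r : ℝ) : ℂ) * σ) := by
      rw [← tsum_mul_left, ← (hsG'.mul_left _).tsum_sub hsc''s, hH]
      simp only
      congr 1
      funext r
      have h2 : exp (((a - r : ℝ) : ℂ) * σ)
          = exp (((a * σ : ℝ)) : ℂ) * exp (((-(σ * r) : ℝ)) : ℂ) := by
        rw [← Complex.exp_add]
        congr 1
        push_cast
        ring
      rw [h2, hc']
      simp only
      split_ifs
      · ring
      · ring
    rw [h1]
    refine (norm_sub_le _ _).trans ?_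
    apply add_le_add
    · rw [norm_mul, Complex.norm_exp_ofReal]
      calc Real.exp (a * σ) * ‖∑' r : ℚ, c r * exp (((-(σ * r) : ℝ)) : ℂ)‖
          ≤ Real.exp (a * σ) * (D * Real.exp (-(a * σ))) :=
            mul_le_mul_of_nonneg_left (hG σ hσ) (Real.exp_pos _).le
        _ = D * (Real.exp (a * σ) * Real.exp (-(a * σ))) := by ring
        _ = D := by rw [← Real.exp_add, add_neg_cancel, Real.exp_zero, mul_one]
    · exact tsum_of_norm_bounded hc.hasSum hsc''
  -- Phragmen-Lindelof
  have hright : ∀ s : ℂ, 0 ≤ s.re → ‖H s‖ ≤ S := by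
    intro s hs
    refine PhragmenLindelof.right_half_plane_of_bounded_on_real (f := H) (C := S)
      hdiff.diffContOnCl ⟨1, by norm_num, a, ?_⟩ ?_ ?_ hs
    · apply Asymptotics.IsBigO.of_bound S
      filter_upwards with z
      rw [Real.norm_eq_abs, abs_of_pos (Real.exp_pos _), Real.rpow_one]
      exact hbound z ‖z‖ ((le_abs_self _).trans (Complex.abs_re_le_norm z)) (norm_nonneg _)
    · refine ⟨D + ∑' r, ‖c r‖, ?_⟩
      rw [Filter.eventually_map]
      filter_upwards [eventually_gt_atTop 0] with σ hσ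
      exact hreal σ hσ
    · intro x
      apply hleft
      simp
  have hall : ∀ s : ℂ, ‖H s‖ ≤ S := by
    intro s
    rcases le_total 0 s.re with h | h
    · exact hright s h
    · exact hleft s h
  have hconst : ∀ z w : ℂ, H z = H w := fun z w =>
    hdiff.apply_eq_apply_of_bounded (isBounded_iff_forall_norm_le.2 ⟨S, by
      rintro _ ⟨s, rfl⟩
      exact hall s⟩) z w
  have hlim : Tendsto (fun x : ℕ => H (-(x : ℂ))) atTop (𝓝 0) := by
    have h1 : Tendsto (fun x : ℕ => ∑' r : ℚ, c' r * exp (((a - r : ℝ) : ℂ) * (-(x : ℂ)))) atTop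
        (𝓝 (∑' _r : ℚ, (0 : ℂ))) := by
      refine tendsto_tsum_of_dominated_convergence hc's ?_ ?_
      · intro r
        by_cases hr : c' r = 0
        · simp [hr]
        · have h2 : (r : ℝ) < a := by
            by_contra h
            apply hr
            rw [hc']
            simp only
            rw [if_neg h]
          rw [tendsto_zero_iff_norm_tendsto_zero]
          have h3 : ∀ x : ℕ, ‖c' r * exp (((a - r : ℝ) : ℂ) * (-(x : ℂ)))‖
              = ‖c' r‖ * Real.exp (-(a - r)) ^ x := by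
            intro x
            rw [norm_mul, Complex.norm_exp, Complex.re_ofReal_mul, ← Real.exp_nat_mul]
            congr 2
            simp
            ring
          simp only [h3]
          have h4 := (tendsto_pow_atTop_nhds_zero_of_lt_one (Real.exp_pos (-(a - r))).le
            (Real.exp_lt_one_iff.2 (by linarith))).const_mul ‖c' r‖
          rwa [mul_zero] at h4
      · filter_upwards with x r
        have := hterm r (-(x : ℂ)) 0 (by simp) le_rfl
        simpa using this
    rw [tsum_zero] at h1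
    exact h1
  have hzero : ∀ s, H s = 0 := by
    intro s
    have h1 : Tendsto (fun _ : ℕ => H s) atTop (𝓝 0) :=
      hlim.congr fun x => hconst _ _
    exact tendsto_nhds_unique tendsto_const_nhds h1
  intro r hr
  have h1 := coeff_unique hc's ha hsupp (by
    intro τ
    have h2 := hzero (τ * I)
    rw [hH] at h2
    simp only at h2
    rw [← h2]
    congr 1
    funext q
    congr 2
    push_cast
    ring) r
  rw [hc'] at h1
  simp only at h1
  rwa [if_pos hr] at h1

end Pool.Agent.Y282.CS
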