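import Pool.Agent.Y282.CS.Bad
import Pool.Agent.Y282.CS.Defect
import Pool.Agent.Y282.CS.Interp

/-!
The estimate at a fixed level.
-/

set_option autoImplicit false

open Filter Topology Polynomial

namespace Pool.Agent.Y282.CS

/-- a continuous real semigroup modulo the ideal of elements supported in `(N, ∞)` -/
structure Loc (N : ℕ) (b : ℝ → ℚ → ℂ) : Prop where
  summ : ∀ x, 0 < x → Summable fun r => ‖b x r‖
  zero : ∀ x, 0 < x → ∀ r ≤ 0, b x r = 0
  cont : ∀ x, 0 < x → Tendsto (fun y => ∑' r, ‖b y r - b x r‖) (𝓝 x) (𝓝 0)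
  mul : ∀ x y, 0 < x → 0 < y → ∀ r : ℚ, r ≤ N → b (x + y) r = ∑' p : ℚ, b x p * b y (r - p)

theorem Loc.diff_summ {N : ℕ} {b : ℝ → ℚ → ℂ} (hb : Loc N b) {x y : ℝ} (hx : 0 < x) (hy : 0 < y) :
    Summable fun r => ‖b y r - b x r‖ :=
  Summable.of_nonneg_of_le (fun _ => norm_nonneg _) (fun _ => norm_sub_le _ _)
    ((hb.summ y hy).add (hb.summ x hx))

theorem Loc.coeff_cont {N : ℕ} {b : ℝ → ℚ → ℂ} (hb : Loc N b) (q : ℚ) :
    ContinuousOn (fun x => b x q) (Set.Ioi 0) := by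
  intro x hx
  apply ContinuousAt.continuousWithinAt
  have hx' : 0 < x := hx
  rw [ContinuousAt, tendsto_iff_norm_sub_tendsto_zero]
  refine tendsto_of_tendsto_of_tendsto_of_le_of_le' tendsto_const_nhds (hb.cont x hx') ?_ ?_
  · exact Eventually.of_forall fun y => norm_nonneg _
  · filter_upwards [lt_mem_nhds hx'] with y hy
    exact (hb.diff_summ hx' hy).le_tsum q (fun _ _ => norm_nonneg _)

theorem Loc.bound {N : ℕ} {b : ℝ → ℚ → ℂ} (hb : Loc N b) {u v : ℝ} (hu : 0 < u) :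
    ∃ D : ℝ, 1 ≤ D ∧ ∀ x ∈ Set.Icc u v, ∑' r, ‖b x r‖ ≤ D := by
  have hloc : ∀ x ∈ Set.Icc u v, ∃ s ∈ 𝓝[Set.Icc u v] x, ∃ D : ℝ, 1 ≤ D ∧ ∀ y ∈ s,
      ∑' r, ‖b y r‖ ≤ D := by
    intro x hx
    have hx0 : 0 < x := lt_of_lt_of_le hu hx.1
    have h1 : ∀ᶠ y in 𝓝 x, ∑' r, ‖b y r - b x r‖ < 1 :=
      (hb.cont x hx0).eventually (gt_mem_nhds one_pos)
    have h2 : ∀ᶠ y in 𝓝 x, 0 < y := lt_mem_nhds hx0
    have h0 : 0 ≤ ∑' r, ‖b x r‖ := tsum_nonneg fun r => norm_nonneg _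
    refine ⟨{y | ∑' r, ‖b y r - b x r‖ < 1 ∧ 0 < y}, mem_nhdsWithin_of_mem_nhds (h1.and h2),
      ∑' r, ‖b x r‖ + 1, by linarith, ?_⟩
    intro y hy
    have h3 : ∑' r, ‖b y r‖ ≤ ∑' r, (‖b x r‖ + ‖b y r - b x r‖) := by
      refine (hb.summ y hy.2).tsum_le_tsum (fun r => ?_)
        ((hb.summ x hx0).add (hb.diff_summ hx0 hy.2))
      have := norm_add_le (b x r) (b y r - b x r)
      rwa [add_sub_cancel] at this
    rw [(hb.summ x hx0).tsum_add (hb.diff_summ hx0 hy.2)] at h3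
    linarith [hy.1]
  refine isCompact_Icc.induction_on (p := fun s => ∃ D : ℝ, 1 ≤ D ∧ ∀ x ∈ s,
    ∑' r, ‖b x r‖ ≤ D) ⟨1, le_rfl, fun x hx => absurd hx (Set.notMem_empty x)⟩ ?_ ?_ hloc
  · rintro s s' hss ⟨D, hD, h⟩
    exact ⟨D, hD, fun x hx => h x (hss hx)⟩
  · rintro s s' ⟨D, hD, h⟩ ⟨D', hD', h'⟩
    refine ⟨max D D', hD.trans (le_max_left _ _), fun x hx => ?_⟩
    rcases hx with hx | hx
    · exact (h x hx).trans (le_max_left _ _)
    · exact (h' x hx).trans (le_max_right _ _)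

/-- **the estimate at a fixed level** -/
theorem level_bound {N : ℕ} (hN : 0 < N) {b : ℝ → ℚ → ℂ} (hb : Loc N b) {t : ℝ} (ht : 0 < t)
    {D : ℝ} (hD1 : 1 ≤ D) (hD : ∀ x ∈ Set.Icc (t / 4) t, ∑' r, ‖b x r‖ ≤ D) {p m₀ n : ℕ}
    (hp : 1 ≤ p) (hm₀ : D ^ 2 * Real.exp (-(360 * m₀)) ≤ 1 / 2)
    (hpD : 5 * D * Real.exp (-(90 * p)) ≤ 1) {S : ℝ} (hS : S = 720 * ((p : ℝ) + m₀) / N)
    (hn : 2 * S ≤ n.factorial)
    (htail : ∀ x ∈ Set.Icc (t / 4) t, tail n (b x) ^ 2 ≤ Real.exp (-(360 * p)) / 2) :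
    ∃ u : ℂ, ‖u‖ = 1 ∧ ∀ σ : ℝ, 0 ≤ σ → σ ≤ 15 / 16 * S →
      ‖ev N n (b t) (((1 - σ / n.factorial : ℝ) : ℂ) * u)‖ ≤ D * Real.exp (-(p * σ / S)) := by
  have hNr : (0 : ℝ) < N := by exact_mod_cast hN
  have hpr : (1 : ℝ) ≤ p := by exact_mod_cast hp
  have hm₀r : (0 : ℝ) ≤ m₀ := by positivity
  have hSp : 0 < S := by
    rw [hS]
    positivity
  have hfac : (0 : ℝ) < n.factorial := by exact_mod_cast n.factorial_pos
  set θ : ℝ := S / n.factorial with hθ
  have hθp : 0 < θ := by positivity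
  have hθ2 : θ ≤ 1 / 2 := by
    rw [hθ, div_le_iff₀ hfac]
    linarith
  set M : ℕ := N * n.factorial with hM
  set c : ℕ → ℝ → ℂ := fun j x => b x ((j : ℚ) / (n.factorial : ℚ)) with hc
  have hFe : ∀ x z, Fe (M + 1) c x z = ev N n (b x) z := by
    intro x z
    rw [ev_eq_sum]
    rfl
  have hcc : ∀ j, ContinuousOn (c j) (Set.Ioi 0) := fun j => hb.coeff_cont _
  set e : ℝ := Real.exp (-(90 * p)) with he
  have hep : 0 < e := Real.exp_pos _
  have he1 : e ≤ 1 / 5 := by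
    nlinarith
  have hη4 : Real.exp (-(360 * p)) = e ^ 4 := by
    rw [he, ← Real.exp_nat_mul]
    congr 1
    push_cast
    ring
  rw [hη4] at htail
  -- the defect
  have hdef : ∀ x y, t / 4 ≤ x → x ≤ 3 * t / 4 → t / 4 ≤ y → y ≤ 3 * t / 4 → x + y ≤ t →
      ∀ z : ℂ, ‖z‖ ≤ 1 - θ / 2 →
      ‖Fe (M + 1) c (x + y) z - Fe (M + 1) c x z * Fe (M + 1) c y z‖ ≤ e ^ 4 := by
    intro x y hx1 hx2 hy1 hy2 hxy z hz
    rw [hFe, hFe, hFe]
    have hx0 : 0 < x := by linarith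
    have hy0 : 0 < y := by linarith
    have hz1 : ‖z‖ ≤ 1 := by linarith
    refine (defect_bound (hb.summ x hx0) (hb.summ y hy0) (hb.zero x hx0) (hb.zero y hy0)
      (hb.mul x y hx0 hy0) hz1).trans ?_
    have hxI : x ∈ Set.Icc (t / 4) t := ⟨hx1, by linarith⟩
    have hyI : y ∈ Set.Icc (t / 4) t := ⟨hy1, by linarith⟩
    have h1 := htail x hxI
    have h2 := htail y hyI
    have h3 : tail n (b x) * tail n (b y) ≤ e ^ 4 / 2 := by
      nlinarith [sq_nonneg (tail n (b x) - tail n (b y))]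
    have h4 : ‖z‖ ^ (N * n.factorial) ≤ Real.exp (-(360 * m₀)) * e ^ 4 := by
      have h5 : ‖z‖ ≤ Real.exp (-(θ / 2)) := by
        have := Real.add_one_le_exp (-(θ / 2))
        linarith
      calc ‖z‖ ^ (N * n.factorial) ≤ (Real.exp (-(θ / 2))) ^ (N * n.factorial) :=
            pow_le_pow_left₀ (norm_nonneg _) h5 _
        _ = Real.exp (-(360 * m₀)) * e ^ 4 := by
            rw [← hη4, ← Real.exp_nat_mul, ← Real.exp_add]
            congr 1
            rw [hθ, hS]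
            push_cast
            field_simp
            ring
    have h6 : (∑' r, ‖b x r‖) * (∑' r, ‖b y r‖) ≤ D ^ 2 := by
      rw [sq]
      exact mul_le_mul (hD x hxI) (hD y hyI) (tsum_nonneg fun r => norm_nonneg _) (by linarith)
    calc tail n (b x) * tail n (b y) + (∑' r, ‖b x r‖) * (∑' r, ‖b y r‖) * ‖z‖ ^ (N * n.factorial)
        ≤ e ^ 4 / 2 + D ^ 2 * (Real.exp (-(360 * m₀)) * e ^ 4) := by
          apply add_le_add h3
          exact mul_le_mul h6 h4 (by positivity) (by positivity)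
      _ = e ^ 4 / 2 + (D ^ 2 * Real.exp (-(360 * m₀))) * e ^ 4 := by ring
      _ ≤ e ^ 4 / 2 + 1 / 2 * e ^ 4 := by
          have := mul_le_mul_of_nonneg_right hm₀ (by positivity : 0 ≤ e ^ 4)
          linarith
      _ = e ^ 4 := by ring
  have hFD : ∀ x, t / 4 ≤ x → x ≤ t → ∀ z : ℂ, ‖z‖ ≤ 1 → ‖Fe (M + 1) c x z‖ ≤ D := by
    intro x hx1 hx2 z hz
    rw [hFe]
    exact (ev_norm_le (hb.summ x (by linarith)) hz).trans (hD x ⟨hx1, hx2⟩)
  -- the first small value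
  have he2 : e ^ 2 ≤ 1 / 25 := by nlinarith
  have he4 : e ^ 4 ≤ 1 / 25 * e ^ 2 := by nlinarith [sq_nonneg e]
  obtain ⟨z₁, hz₁, hz₁F⟩ := bad_point M c ht hcc 0 (ρ := 1 - θ) (D := D) (η := e ^ 4)
    (γ := 2 * e ^ 4) (by linarith) hD1 (by positivity) (by linarith) (by positivity) le_rfl
    (by
      intro x y hx1 hx2 hy1 hy2 hxy z hz
      rw [sub_zero] at hz
      exact hdef x y hx1 hx2 hy1 hy2 hxy z (by linarith))
    (by
      intro x hx1 hx2 z hz
      rw [sub_zero] at hz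
      exact hFD x hx1 (by linarith) z (by linarith))
    (by
      rw [hFe, ev_zero (hb.zero _ (by linarith)), norm_zero]
      positivity)
  rw [sub_zero] at hz₁
  have hz₁le : ‖z₁‖ ≤ 1 - θ / 2 := by linarith
  have hhalf : ‖Fe (M + 1) c (t / 2) z₁‖ ≤ 2 * e ^ 2 := by
    have h1 := hdef (t / 2) (t / 2) (by linarith) (by linarith) (by linarith) (by linarith)
      (by linarith) z₁ hz₁le
    have h2 : t / 2 + t / 2 = t := by ring
    rw [h2] at h1
    have h3 : ‖Fe (M + 1) c (t / 2) z₁ * Fe (M + 1) c (t / 2) z₁‖ ≤ 3 * e ^ 4 := by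
      have h4 := norm_sub_norm_le (Fe (M + 1) c (t / 2) z₁ * Fe (M + 1) c (t / 2) z₁)
        (Fe (M + 1) c t z₁)
      rw [norm_sub_rev] at h4
      linarith
    rw [norm_mul] at h3
    by_contra h5
    push Not at h5
    have h6 : (2 * e ^ 2) * (2 * e ^ 2)
        < ‖Fe (M + 1) c (t / 2) z₁‖ * ‖Fe (M + 1) c (t / 2) z₁‖ :=
      mul_self_lt_mul_self (by positivity) h5
    have h7 : 0 < e ^ 4 := by positivity
    nlinarith
  have hquart : ‖Fe (M + 1) c (t / 4) z₁‖ ≤ 2 * e := by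
    have h1 := hdef (t / 4) (t / 4) (by linarith) (by linarith) (by linarith) (by linarith)
      (by linarith) z₁ hz₁le
    have h2 : t / 4 + t / 4 = t / 2 := by ring
    rw [h2] at h1
    have h3 : ‖Fe (M + 1) c (t / 4) z₁ * Fe (M + 1) c (t / 4) z₁‖ ≤ 3 * e ^ 2 := by
      have h4 := norm_sub_norm_le (Fe (M + 1) c (t / 4) z₁ * Fe (M + 1) c (t / 4) z₁)
        (Fe (M + 1) c (t / 2) z₁)
      rw [norm_sub_rev] at h4
      nlinarith [sq_nonneg e]
    rw [norm_mul] at h3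
    by_contra h5
    push Not at h5
    have h6 : (2 * e) * (2 * e)
        < ‖Fe (M + 1) c (t / 4) z₁‖ * ‖Fe (M + 1) c (t / 4) z₁‖ :=
      mul_self_lt_mul_self (by positivity) h5
    have h7 : 0 < e ^ 2 := by positivity
    nlinarith
  -- the small values on small circles
  have hdisc : ∀ z : ℂ, ‖z - z₁‖ ≤ θ → ‖z‖ ≤ 1 := by
    intro z hz
    have h1 : z = (z - z₁) + z₁ := by ring
    calc ‖z‖ = ‖(z - z₁) + z₁‖ := by rw [← h1]
      _ ≤ ‖z - z₁‖ + ‖z₁‖ := norm_add_le _ _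
      _ ≤ 1 := by linarith
  have hdisc' : ∀ z : ℂ, ‖z - z₁‖ ≤ θ / 16 → ‖z‖ ≤ 1 - θ / 2 := by
    intro z hz
    have h1 : z = (z - z₁) + z₁ := by ring
    calc ‖z‖ = ‖(z - z₁) + z₁‖ := by rw [← h1]
      _ ≤ ‖z - z₁‖ + ‖z₁‖ := norm_add_le _ _
      _ ≤ 1 - θ / 2 := by linarith
  have hsm : ∀ ρ : ℝ, 0 < ρ → ρ ≤ θ / 16 → ∃ z : ℂ, ‖z - z₁‖ = ρ ∧
      ‖Fe (M + 1) c t z‖ < 5 * D * e := by
    intro ρ hρ hρθ
    refine bad_point M c ht hcc z₁ (ρ := ρ) (D := D) (η := e ^ 4)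
      (γ := 5 * D * e) hρ hD1 (by positivity) hpD (by positivity) ?_ ?_ ?_ ?_
    · have h1 : e ^ 3 ≤ 1 := pow_le_one₀ hep.le (by linarith)
      have h2 : e ^ 4 = e ^ 3 * e := by ring
      nlinarith
    · intro x y hx1 hx2 hy1 hy2 hxy z hz
      exact hdef x y hx1 hx2 hy1 hy2 hxy z (hdisc' z (by linarith))
    · intro x hx1 hx2 z hz
      exact hFD x hx1 (by linarith) z (hdisc z (by linarith))
    · refine lt_of_le_of_lt hquart ?_
      rw [lt_div_iff₀ (by linarith)]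
      nlinarith
  have h3p : (0 : ℝ) < ((3 * p : ℕ) : ℝ) := by
    have : 0 < 3 * p := by omega
    exact_mod_cast this
  have hex : ∀ j : ℕ, ∃ z : ℂ, j < 3 * p → ‖z - z₁‖ = ((j : ℝ) + 1) * (θ / (16 * ((3 * p : ℕ) : ℝ)))
      ∧ ‖Fe (M + 1) c t z‖ ≤ 5 * D * e := by
    intro j
    by_cases hj : j < 3 * p
    · obtain ⟨z, hz1, hz2⟩ := hsm (((j : ℝ) + 1) * (θ / (16 * ((3 * p : ℕ) : ℝ)))) (by positivity) (by
        have h8 : ((j : ℝ) + 1) * (θ / (16 * ((3 * p : ℕ) : ℝ)))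
            ≤ ((3 * p : ℕ) : ℝ) * (θ / (16 * ((3 * p : ℕ) : ℝ))) := by
          apply mul_le_mul_of_nonneg_right _ (by positivity)
          have : j + 1 ≤ 3 * p := hj
          exact_mod_cast this
        have h9 : ((3 * p : ℕ) : ℝ) * (θ / (16 * ((3 * p : ℕ) : ℝ))) = θ / 16 := by
          field_simp
        linarith)
      exact ⟨z, fun _ => ⟨hz1, hz2.le⟩⟩
    · exact ⟨0, fun h => absurd h hj⟩
  choose xs hxs using hex
  -- the polynomial
  set P : ℂ[X] := Tp (M + 1) c 0 t with hP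
  have hPe : ∀ z, P.eval z = Fe (M + 1) c t z := by
    intro z
    rw [hP, Tp_eval, add_zero]
  have hPD : ∀ z : ℂ, ‖z - z₁‖ ≤ θ → ‖P.eval z‖ ≤ D := by
    intro z hz
    rw [hPe]
    exact hFD t (by linarith) le_rfl z (hdisc z hz)
  have hinner : ∀ z : ℂ, ‖z - z₁‖ ≤ θ / 16 → ‖P.eval z‖ ≤ D / 16 ^ p := by
    intro z hz
    have h1 := interp_bound (P := P) (z₁ := z₁) (D := D) (K := 5 * D * e) hθp (by positivity)
      (m := 3 * p) (by omega) (fun w hw => hPD w (by linarith))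
      (fun j hj => (hxs j hj).1) (fun j hj => by rw [hPe]; exact (hxs j hj).2) hz
    refine h1.trans ?_
    rw [le_div_iff₀ (by positivity)]
    have h2 : ((2 : ℝ) / 7) ^ (3 * p) * 16 ^ p ≤ 1 / 2 := by
      rw [pow_mul, ← mul_pow]
      calc (((2 : ℝ) / 7) ^ 3 * 16) ^ p ≤ (((2 : ℝ) / 7) ^ 3 * 16) ^ 1 :=
            pow_le_pow_of_le_one (by positivity) (by norm_num) hp
        _ ≤ 1 / 2 := by norm_num
    have h3 : (16 : ℝ) ^ p ≤ Real.exp (3 * p) := by
      have h4 : (16 : ℝ) ≤ Real.exp 3 := by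
        have h5 := Real.exp_one_gt_d9
        have h6 : Real.exp 3 = (Real.exp 1) ^ 3 := by
          rw [← Real.exp_nat_mul]
          norm_num
        rw [h6]
        have h7 : (2.7 : ℝ) ^ 3 ≤ (Real.exp 1) ^ 3 :=
          pow_le_pow_left₀ (by norm_num) (by linarith) 3
        have h8 : (16 : ℝ) ≤ 2.7 ^ 3 := by norm_num
        linarith
      calc (16 : ℝ) ^ p ≤ (Real.exp 3) ^ p := pow_le_pow_left₀ (by norm_num) h4 p
        _ = Real.exp (3 * p) := by
            rw [← Real.exp_nat_mul]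
            congr 1
            ring
    have h4 : e * Real.exp (19 * ((3 * p : ℕ) : ℝ)) * 16 ^ p ≤ 1 / 20 := by
      calc e * Real.exp (19 * ((3 * p : ℕ) : ℝ)) * 16 ^ p
          ≤ e * Real.exp (19 * ((3 * p : ℕ) : ℝ)) * Real.exp (3 * p) :=
            mul_le_mul_of_nonneg_left h3 (by positivity)
        _ = Real.exp (-(30 * p)) := by
            rw [he, ← Real.exp_add, ← Real.exp_add]
            congr 1
            push_cast
            ring
        _ ≤ 1 / 20 := by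
            rw [Real.exp_neg, ← one_div]
            apply one_div_le_one_div_of_le (by norm_num)
            have := Real.add_one_le_exp (30 * (p : ℝ))
            linarith
    calc (2 * (5 * D * e * Real.exp (19 * ((3 * p : ℕ) : ℝ))) + (2 / 7) ^ (3 * p) * D) * 16 ^ p
        = 10 * D * (e * Real.exp (19 * ((3 * p : ℕ) : ℝ)) * 16 ^ p)
          + D * ((2 / 7) ^ (3 * p) * 16 ^ p) := by ring
      _ ≤ 10 * D * (1 / 20) + D * (1 / 2) := by
          apply add_le_add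
          · exact mul_le_mul_of_nonneg_left h4 (by positivity)
          · exact mul_le_mul_of_nonneg_left h2 (by positivity)
      _ = D := by ring
  -- the unit vector
  have hz₁0 : 0 < ‖z₁‖ := by linarith
  refine ⟨z₁ / (‖z₁‖ : ℂ), ?_, ?_⟩
  · rw [norm_div, Complex.norm_real, norm_norm, div_self hz₁0.ne']
  · intro σ hσ0 hσ
    set u : ℂ := z₁ / (‖z₁‖ : ℂ) with hu
    have hun : ‖u‖ = 1 := by
      rw [hu, norm_div, Complex.norm_real, norm_norm, div_self hz₁0.ne']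
    have hz₁u : z₁ = (((1 - θ : ℝ)) : ℂ) * u := by
      rw [← hz₁, hu, mul_div_cancel₀]
      rw [Complex.ofReal_ne_zero]
      exact hz₁0.ne'
    have hdist : ‖((1 - σ / n.factorial : ℝ) : ℂ) * u - z₁‖ = θ - σ / n.factorial := by
      have h1 : ((1 - σ / n.factorial : ℝ) : ℂ) * u - z₁
          = (((θ - σ / n.factorial : ℝ)) : ℂ) * u := by
        conv_lhs => rw [hz₁u]
        push_cast
        ring
      rw [h1, norm_mul, hun, mul_one, Complex.norm_real, Real.norm_eq_abs, abs_of_nonneg]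
      rw [hθ, ← sub_div]
      apply div_nonneg _ hfac.le
      linarith
    have hσθ : σ / n.factorial ≤ 15 / 16 * θ := by
      rw [hθ, ← mul_div_assoc]
      exact div_le_div_of_nonneg_right hσ hfac.le
    have h1 := annulus_bound (P := P) (z₁ := z₁) (D := D) hθp p
      (fun z hz => hPD z hz.le) (fun z hz => hinner z hz.le)
      (z := ((1 - σ / n.factorial : ℝ) : ℂ) * u) (by rw [hdist]; linarith) (by
        rw [hdist]
        have : 0 ≤ σ / n.factorial := by positivity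
        linarith)
    rw [hPe, hFe, hdist] at h1
    refine h1.trans ?_
    apply mul_le_mul_of_nonneg_left _ (by linarith)
    have h2 : (θ - σ / n.factorial) / θ = 1 - σ / S := by
      rw [hθ]
      field_simp
    rw [h2]
    have h3 : 1 - σ / S ≤ Real.exp (-(σ / S)) := by
      have := Real.add_one_le_exp (-(σ / S))
      linarith
    have h4 : 0 ≤ 1 - σ / S := by
      rw [sub_nonneg, div_le_one hSp]
      linarith
    calc (1 - σ / S) ^ p ≤ (Real.exp (-(σ / S))) ^ p := pow_le_pow_left₀ h4 h3 p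
      _ = Real.exp (-(p * σ / S)) := by
          rw [← Real.exp_nat_mul]
          congr 1
          ring

end Pool.Agent.Y282.CS
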