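import Pool.Agent.Y282.CS.Level
import Pool.Agent.Y282.CS.Lap

/-!
Support of the members of a continuous semigroup.
-/

set_option autoImplicit false

open Filter Topology

namespace Pool.Agent.Y282.CS

/-- `(1 - σ / M) ^ (r M) → exp (-σ r)` -/
theorem pow_limit {σ : ℝ} (hσ : 0 < σ) (r : ℚ) (Ms : ℕ → ℕ) (hMs : Tendsto Ms atTop atTop)
    (ks : ℕ → ℕ) (hk : ∀ᶠ q in atTop, ((ks q : ℕ) : ℝ) = r * Ms q) :
    Tendsto (fun q => (1 - σ / (Ms q : ℝ)) ^ ks q) atTop (𝓝 (Real.exp (-(σ * r)))) := by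
  have h1 : Tendsto (fun q => (1 + (-σ) / (Ms q : ℝ)) ^ (Ms q)) atTop (𝓝 (Real.exp (-σ))) :=
    (Real.tendsto_one_add_div_pow_exp (-σ)).comp hMs
  have h2 : Tendsto (fun q => ((1 + (-σ) / (Ms q : ℝ)) ^ (Ms q)) ^ ((r : ℝ))) atTop
      (𝓝 ((Real.exp (-σ)) ^ (r : ℝ))) :=
    h1.rpow_const (Or.inl (Real.exp_pos _).ne')
  have h3 : (Real.exp (-σ)) ^ (r : ℝ) = Real.exp (-(σ * r)) := by
    rw [← Real.exp_mul]
    congr 1
    ring
  rw [h3] at h2
  refine h2.congr' ?_
  have h4 : ∀ᶠ q in atTop, σ < (Ms q : ℝ) :=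
    (tendsto_natCast_atTop_atTop.comp hMs).eventually_gt_atTop σ
  filter_upwards [hk, h4] with q hq hq4
  have hM0 : (0 : ℝ) < Ms q := hσ.trans hq4
  have h5 : 0 ≤ 1 + (-σ) / (Ms q : ℝ) := by
    have : σ / (Ms q : ℝ) ≤ 1 := by
      rw [div_le_one hM0]
      exact hq4.le
    rw [neg_div]
    linarith
  have h6 : 1 - σ / (Ms q : ℝ) = 1 + (-σ) / (Ms q : ℝ) := by ring
  rw [h6, ← Real.rpow_natCast (1 + (-σ) / (Ms q : ℝ)) (Ms q), ← Real.rpow_mul h5,
    ← Real.rpow_natCast (1 + (-σ) / (Ms q : ℝ)) (ks q), hq]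
  congr 1
  ring

theorem loc_support {N : ℕ} (hN : 0 < N) {b : ℝ → ℚ → ℂ} (hb : Loc N b) {t : ℝ} (ht : 0 < t) :
    ∀ r : ℚ, (r : ℝ) < N / 1440 → b t r = 0 := by
  have hNr : (0 : ℝ) < N := by exact_mod_cast hN
  obtain ⟨D, hD1, hD⟩ := hb.bound (u := t / 4) (v := t) (by linarith)
  obtain ⟨m₀, hm₀'⟩ := exists_nat_gt (2 * D ^ 2)
  have hm₀ : D ^ 2 * Real.exp (-(360 * m₀)) ≤ 1 / 2 := by
    rw [Real.exp_neg, ← div_eq_mul_inv, div_le_iff₀ (Real.exp_pos _)]
    have := Real.add_one_le_exp (360 * (m₀ : ℝ))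
    have h2 : (0 : ℝ) ≤ m₀ := by positivity
    linarith
  obtain ⟨p₁, hp₁⟩ := exists_nat_gt (5 * D)
  set p₀ : ℕ := max (max 1 m₀) p₁ with hp₀
  have hp₀1 : 1 ≤ p₀ := (le_max_left _ _).trans (le_max_left _ _)
  have hp₀m : m₀ ≤ p₀ := (le_max_right _ _).trans (le_max_left _ _)
  have hp₀p : p₁ ≤ p₀ := le_max_right _ _
  set Sf : ℕ → ℝ := fun q => 720 * (((q + p₀ : ℕ) : ℝ) + m₀) / N with hSf
  have hlev : ∀ q : ℕ, ∃ n : ℕ, q ≤ n ∧ ∃ u : ℂ, ‖u‖ = 1 ∧ ∀ σ : ℝ, 0 ≤ σ → σ ≤ 15 / 16 * Sf q →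
      ‖ev N n (b t) (((1 - σ / n.factorial : ℝ) : ℂ) * u)‖
        ≤ D * Real.exp (-(((q + p₀ : ℕ) : ℝ) * σ / Sf q)) := by
    intro q
    obtain ⟨n₀, hn₀⟩ := tail_uniform (b := b) (hb.summ) (hb.zero) (hb.cont) (u := t / 4) (v := t)
      (by linarith) (ε := Real.exp (-(180 * ((q + p₀ : ℕ) : ℝ))) / 2) (by positivity)
    obtain ⟨n₁, hn₁⟩ := exists_nat_gt (2 * Sf q)
    set n : ℕ := max (max n₀ n₁) q with hn
    have hnn0 : n₀ ≤ n := (le_max_left _ _).trans (le_max_left _ _)
    have hnn1 : n₁ ≤ n := (le_max_right _ _).trans (le_max_left _ _)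
    refine ⟨n, le_max_right _ _, ?_⟩
    refine level_bound hN hb ht hD1 hD (p := q + p₀) (m₀ := m₀) (n := n) (by omega) hm₀ ?_ rfl ?_ ?_
    · have hq : (p₁ : ℝ) ≤ ((q + p₀ : ℕ) : ℝ) := by exact_mod_cast (by omega : p₁ ≤ q + p₀)
      rw [Real.exp_neg, ← div_eq_mul_inv, div_le_iff₀ (Real.exp_pos _), one_mul]
      have := Real.add_one_le_exp (90 * ((q + p₀ : ℕ) : ℝ))
      have h2 : (0 : ℝ) ≤ ((q + p₀ : ℕ) : ℝ) := by positivity
      linarith
    · have h1 : (n₁ : ℝ) ≤ (n.factorial : ℝ) := by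
        exact_mod_cast hnn1.trans (Nat.self_le_factorial n)
      linarith
    · intro x hx
      have h1 := hn₀ n hnn0 x hx
      have h2 := tail_nonneg n (b x)
      have h3 : Real.exp (-(360 * ((q + p₀ : ℕ) : ℝ))) = Real.exp (-(180 * ((q + p₀ : ℕ) : ℝ))) ^ 2 := by
        rw [← Real.exp_nat_mul]
        congr 1
        push_cast
        ring
      rw [h3]
      calc tail n (b x) ^ 2 ≤ (Real.exp (-(180 * ((q + p₀ : ℕ) : ℝ))) / 2) ^ 2 :=
            pow_le_pow_left₀ h2 h1 2
        _ ≤ Real.exp (-(180 * ((q + p₀ : ℕ) : ℝ))) ^ 2 / 2 := by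
            have : 0 ≤ Real.exp (-(180 * ((q + p₀ : ℕ) : ℝ))) ^ 2 := by positivity
            rw [div_pow]
            linarith
  choose ns hns us hus hbound using hlev
  -- a limit character
  have husm : ∀ q, ∃ z : Circle, (z : ℂ) = us q := by
    intro q
    refine ⟨⟨us q, ?_⟩, rfl⟩
    change us q ∈ Metric.sphere (0 : ℂ) 1
    rw [mem_sphere_zero_iff_norm]
    exact hus q
  choose zs hzs using husm
  set χs : ℕ → ℚ → Circle := fun q r => zs q ^ ix (ns q) r with hχs
  obtain ⟨χ, φ, hφ, hχ⟩ := CompactSpace.tendsto_subseq χs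
  rw [tendsto_pi_nhds] at hχ
  have hφt : Tendsto φ atTop atTop := hφ.tendsto_atTop
  have hnst : Tendsto (fun q => ns (φ q)) atTop atTop :=
    tendsto_atTop_mono (fun q => hns (φ q)) hφt
  have hfact : Tendsto (fun q => (ns (φ q)).factorial) atTop atTop :=
    tendsto_atTop_mono (fun q => Nat.self_le_factorial _) hnst
  set c : ℚ → ℂ := fun r => if r ≤ N then b t r * (χ r : ℂ) else 0 with hc
  have hcle : ∀ r, ‖c r‖ ≤ ‖b t r‖ := by
    intro r
    rw [hc]
    simp only
    split_ifs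
    · rw [norm_mul, Circle.norm_coe, mul_one]
    · rw [norm_zero]; exact norm_nonneg _
  have hcs : Summable fun r => ‖c r‖ :=
    Summable.of_nonneg_of_le (fun _ => norm_nonneg _) hcle (hb.summ t ht)
  have hc0 : ∀ r : ℚ, r ≤ 0 → c r = 0 := by
    intro r hr
    have := hcle r
    rw [hb.zero t ht r hr, norm_zero] at this
    exact norm_le_zero_iff.1 this
  have hSft : Tendsto (fun q => Sf (φ q)) atTop atTop := by
    have h1 : ∀ q : ℕ, (q : ℝ) / N ≤ Sf q := by
      intro q
      rw [hSf]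
      simp only
      apply div_le_div_of_nonneg_right _ hNr.le
      push_cast
      have : (0 : ℝ) ≤ q := by positivity
      have h2 : (0 : ℝ) ≤ m₀ := by positivity
      have h3 : (0 : ℝ) ≤ p₀ := by positivity
      linarith
    have h2 : Tendsto (fun q : ℕ => (q : ℝ) / N) atTop atTop :=
      tendsto_natCast_atTop_atTop.atTop_div_const hNr
    exact (tendsto_atTop_mono h1 h2).comp hφt
  have hmain : ∀ σ : ℝ, 0 < σ →
      ‖∑' r : ℚ, c r * Complex.exp (((-(σ * r) : ℝ)) : ℂ)‖ ≤ D * Real.exp (-((N / 1440 : ℝ) * σ)) := by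
    intro σ hσ
    have hlim : Tendsto (fun q => ev N (ns (φ q)) (b t)
        (((1 - σ / (ns (φ q)).factorial : ℝ) : ℂ) * us (φ q))) atTop
        (𝓝 (∑' r : ℚ, c r * Complex.exp (((-(σ * r) : ℝ)) : ℂ))) := by
      have hbig : ∀ᶠ q in atTop, σ < ((ns (φ q)).factorial : ℝ) :=
        (tendsto_natCast_atTop_atTop.comp hfact).eventually_gt_atTop σ
      unfold ev
      refine tendsto_tsum_of_dominated_convergence (hb.summ t ht) ?_ ?_
      · intro r
        by_cases hr0 : r ≤ 0
        · simp only [hb.zero t ht r hr0, hc0 r hr0, zero_mul]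
          exact tendsto_const_nhds
        · push Not at hr0
          by_cases hrN : r ≤ N
          · have hev : ∀ᶠ q in atTop, L (ns (φ q)) r :=
              (hnst.eventually_ge_atTop r.den).mono fun q hq => L_eventually hr0.le hq
            have hk : ∀ᶠ q in atTop, ((ix (ns (φ q)) r : ℕ) : ℝ)
                = (r : ℝ) * (((ns (φ q)).factorial : ℕ) : ℝ) := by
              filter_upwards [hev] with q hq
              have h1 : ((ix (ns (φ q)) r : ℕ) : ℚ) = r * ((ns (φ q)).factorial : ℚ) := hq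
              exact_mod_cast congrArg (fun x : ℚ => (x : ℝ)) h1
            have h1 := pow_limit hσ r (fun q => (ns (φ q)).factorial) hfact
              (fun q => ix (ns (φ q)) r) hk
            have h2 : Tendsto (fun q => (((1 - σ / ((ns (φ q)).factorial : ℝ)) ^ ix (ns (φ q)) r : ℝ) : ℂ))
                atTop (𝓝 ((Real.exp (-(σ * r)) : ℝ) : ℂ)) :=
              (Complex.continuous_ofReal.tendsto _).comp h1
            have h3 : Tendsto (fun q => ((χs (φ q) r : Circle) : ℂ)) atTop (𝓝 (χ r : ℂ)) :=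
              (continuous_subtype_val.tendsto _).comp (hχ r)
            have h4 := (h2.mul h3).const_mul (b t r)
            have h5 : b t r * (((Real.exp (-(σ * r)) : ℝ) : ℂ) * (χ r : ℂ))
                = c r * Complex.exp (((-(σ * r) : ℝ)) : ℂ) := by
              rw [hc]
              simp only
              rw [if_pos hrN, Complex.ofReal_exp]
              ring
            rw [h5] at h4
            refine h4.congr' ?_
            filter_upwards [hev] with q hq
            have h6 : ix (ns (φ q)) r ≤ N * (ns (φ q)).factorial := by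
              have h7 : ((ix (ns (φ q)) r : ℕ) : ℚ) = r * ((ns (φ q)).factorial : ℚ) := hq
              have h8 : r * ((ns (φ q)).factorial : ℚ) ≤ N * ((ns (φ q)).factorial : ℚ) :=
                mul_le_mul_of_nonneg_right hrN (fac_pos _).le
              rw [← h7] at h8
              exact_mod_cast h8
            rw [W_pos hq h6, mul_pow, hχs]
            simp only
            rw [Complex.ofReal_pow, Circle.coe_pow, hzs]
          · push Not at hrN
            have h1 : c r = 0 := by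
              rw [hc]
              simp only
              rw [if_neg (not_le.2 hrN)]
            simp only [W_gt hrN, h1, mul_zero, zero_mul]
            exact tendsto_const_nhds
      · filter_upwards [hbig] with q hq r
        rw [norm_mul]
        apply mul_le_of_le_one_right (norm_nonneg _)
        apply W_le
        rw [norm_mul, hus, mul_one, Complex.norm_real, Real.norm_eq_abs]
        have h0 : (0 : ℝ) < (ns (φ q)).factorial := hσ.trans hq
        have h1 : σ / ((ns (φ q)).factorial : ℝ) ≤ 1 := by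
          rw [div_le_one h0]
          exact hq.le
        have h2 : 0 ≤ σ / ((ns (φ q)).factorial : ℝ) := by positivity
        rw [abs_of_nonneg (by linarith)]
        linarith
    refine le_of_tendsto hlim.norm ?_
    have hSbig : ∀ᶠ q in atTop, 16 / 15 * σ ≤ Sf (φ q) := hSft.eventually_ge_atTop _
    filter_upwards [hSbig] with q hq
    refine (hbound (φ q) σ hσ.le (by linarith)).trans ?_
    apply mul_le_mul_of_nonneg_left _ (by linarith)
    apply Real.exp_le_exp.2
    apply neg_le_neg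
    have hp1 : (m₀ : ℝ) ≤ ((φ q + p₀ : ℕ) : ℝ) := by exact_mod_cast (by omega : m₀ ≤ φ q + p₀)
    have hp2 : (1 : ℝ) ≤ ((φ q + p₀ : ℕ) : ℝ) := by exact_mod_cast (by omega : 1 ≤ φ q + p₀)
    have hm0 : (0 : ℝ) ≤ m₀ := by positivity
    rw [hSf]
    simp only
    rw [le_div_iff₀ (by positivity)]
    have h1 : (N : ℝ) / 1440 * σ * (720 * (((φ q + p₀ : ℕ) : ℝ) + m₀) / N)
        = σ * ((((φ q + p₀ : ℕ) : ℝ) + m₀) / 2) := by
      field_simp
      ring
    rw [h1, mul_comm _ σ]
    apply mul_le_mul_of_nonneg_left _ hσ.le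
    linarith
  intro r hr
  have h1 := support_lemma hcs hc0 (a := N / 1440) (D := D) (by positivity) hmain r hr
  by_cases hrN : r ≤ N
  · rw [hc] at h1
    simp only at h1
    rw [if_pos hrN] at h1
    rcases mul_eq_zero.1 h1 with h2 | h2
    · exact h2
    · have := Circle.norm_coe (χ r)
      rw [h2, norm_zero] at this
      exact absurd this zero_ne_one
  · exfalso
    apply hrN
    have h2 : (r : ℝ) ≤ N := by
      refine hr.le.trans ?_
      rw [div_le_iff₀ (by norm_num)]
      linarith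
    exact_mod_cast h2

end Pool.Agent.Y282.CS
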